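import Pool.Agent.Helper23.KU.Stat

/-!
# KU, piece F3: the trick with a high power of `z`
-/

set_option autoImplicit false

namespace Pool.Agent.Helper23.KU

open Polynomial Filter Topology Metric MeasureTheory Set
open Pool.Agent.Helper23.KB (Sph Dom KF Ext sq area_series ms_series kf_le kf_dn kf_nonneg int_cont)
open Pool.Agent.Helper21.IM (PS ps_exists ps_diff ps_mul ps_add ps_congr)

/-- the reversed conjugate polynomial on the unit circle -/
theorem rv_eval {d : ℕ} {a : ℂ[X]} (ha : a.natDegree ≤ d) {z : ℂ} (hz : ‖z‖ = 1) :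
    (rv d a).eval z = z ^ d * (starRingEnd ℂ) (a.eval z) := by
  have hz0 : z ≠ 0 := by
    intro h
    rw [h, norm_zero] at hz
    exact zero_ne_one hz
  have hzi : z⁻¹ ≠ 0 := inv_ne_zero hz0
  have hdeg : (a.map (starRingEnd ℂ)).natDegree ≤ d := natDegree_map_le.trans ha
  let _ : Invertible z⁻¹ := invertibleOfNonzero hzi
  have h1 := eval₂_reflect_mul_pow (RingHom.id ℂ) z⁻¹ d (a.map (starRingEnd ℂ)) hdeg
  rw [invOf_eq_inv, inv_inv] at h1
  have h2 : eval₂ (RingHom.id ℂ) z (reflect d (a.map (starRingEnd ℂ))) = (rv d a).eval z := rfl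
  have h3 : eval₂ (RingHom.id ℂ) z⁻¹ (a.map (starRingEnd ℂ)) =
      (starRingEnd ℂ) (a.eval z) := by
    have h4 : z⁻¹ = (starRingEnd ℂ) z := by
      rw [Complex.inv_def, Complex.normSq_eq_norm_sq, hz]
      simp
    rw [h4]
    show (a.map (starRingEnd ℂ)).eval ((starRingEnd ℂ) z) = _
    rw [eval_map, eval₂_at_apply]
  rw [h2, h3] at h1
  rw [← h1]
  have h5 : (z⁻¹) ^ d * z ^ d = 1 := by
    rw [← mul_pow, inv_mul_cancel₀ hz0, one_pow]
  linear_combination (-(rv d a).eval z) * h5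

/-- maximum principle for a quotient of polynomials in an annulus -/
theorem max_ann {c t : ℝ} {P q : ℂ[X]} (hq : ∀ z : ℂ, c ≤ ‖z‖ → ‖z‖ ≤ 1 → q.eval z ≠ 0)
    (h : ∀ z : ℂ, ‖z‖ = c ∨ ‖z‖ = 1 → ‖P.eval z‖ ≤ t * ‖q.eval z‖) {z : ℂ} (hz : c ≤ ‖z‖)
    (hz1 : ‖z‖ < 1) : ‖P.eval z‖ ≤ t * ‖q.eval z‖ := by
  rcases hz.eq_or_lt with hc | hc
  · exact h z (Or.inl hc.symm)
  set U : Set ℂ := ball 0 1 \ closedBall 0 c with hU
  have hUo : IsOpen U := isOpen_ball.sdiff isClosed_closedBall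
  have hA : IsClosed {z : ℂ | c ≤ ‖z‖ ∧ ‖z‖ ≤ 1} :=
    (isClosed_le continuous_const continuous_norm).inter
      (isClosed_le continuous_norm continuous_const)
  have hcl : closure U ⊆ {z : ℂ | c ≤ ‖z‖ ∧ ‖z‖ ≤ 1} := by
    refine closure_minimal ?_ hA
    rintro w ⟨hw1, hw2⟩
    rw [mem_ball_zero_iff] at hw1
    rw [mem_closedBall_zero_iff, not_le] at hw2
    exact ⟨hw2.le, hw1.le⟩
  have hd : DifferentiableOn ℂ (fun w => P.eval w / q.eval w) (closure U) := by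
    intro w hw
    exact ((Polynomial.differentiable P).differentiableAt.div
      (Polynomial.differentiable q).differentiableAt
      (hq w (hcl hw).1 (hcl hw).2)).differentiableWithinAt
  have hfr : ∀ w ∈ frontier U, ‖P.eval w / q.eval w‖ ≤ t := by
    intro w hw
    have hwc := hcl hw.1
    have hwn : w ∉ U := by
      intro h2
      exact hw.2 (by rwa [hUo.interior_eq])
    have hw3 : ‖w‖ = c ∨ ‖w‖ = 1 := by
      by_contra hcon
      push Not at hcon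
      refine hwn ⟨?_, ?_⟩
      · rw [mem_ball_zero_iff]
        exact lt_of_le_of_ne hwc.2 hcon.2
      · rw [mem_closedBall_zero_iff, not_le]
        exact lt_of_le_of_ne hwc.1 (Ne.symm hcon.1)
    rw [norm_div, div_le_iff₀ (norm_pos_iff.2 (hq w hwc.1 hwc.2))]
    exact h w hw3
  have hb : Bornology.IsBounded U := isBounded_ball.subset sdiff_subset
  have hzU : z ∈ U := by
    refine ⟨?_, ?_⟩
    · rwa [mem_ball_zero_iff]
    · rw [mem_closedBall_zero_iff, not_le]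
      exact hc
  have h2 := Complex.norm_le_of_forall_mem_frontier_norm_le hb hd.diffContOnCl hfr
    (subset_closure hzU)
  rwa [norm_div, div_le_iff₀ (norm_pos_iff.2 (hq z hz hz1.le))] at h2

/-- parallelogram identity -/
theorem par_sq {Y : ℂ → ℂ} (hY : ContinuousOn Y (ball 0 1))
    (hYi : IntegrableOn (fun z => ‖Y z‖ ^ 2) (ball 0 1)) (P Q : ℂ[X]) :
    sq (fun z => (P + Q).eval z * Y z) 1 + sq (fun z => (P - Q).eval z * Y z) 1 =
      2 * sq (fun z => P.eval z * Y z) 1 + 2 * sq (fun z => Q.eval z * Y z) 1 := by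
  have i1 := int_mul hY hYi (P + Q)
  have i2 := int_mul hY hYi (P - Q)
  have i3 := int_mul hY hYi P
  have i4 := int_mul hY hYi Q
  unfold Pool.Agent.Helper23.KB.sq
  have e1 : ∫ z in ball (0 : ℂ) 1, (‖(P + Q).eval z * Y z‖ ^ 2 + ‖(P - Q).eval z * Y z‖ ^ 2) =
      ∫ z in ball (0 : ℂ) 1, (2 * ‖P.eval z * Y z‖ ^ 2 + 2 * ‖Q.eval z * Y z‖ ^ 2) := by
    congr 1
    funext z
    rw [eval_add, eval_sub, add_mul, sub_mul]
    have := parallelogram_law_with_norm ℝ (P.eval z * Y z) (Q.eval z * Y z)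
    nlinarith
  rw [integral_add i1 i2, integral_add (i3.const_mul 2) (i4.const_mul 2), integral_const_mul,
    integral_const_mul] at e1
  linear_combination Real.pi⁻¹ * e1

/-- lower bound for the norm of `z ^ K R Y` -/
theorem low_sq {Y : ℂ → ℂ} {X' : PowerSeries ℂ} (hX : TS Y X')
    (hYi : IntegrableOn (fun z => ‖Y z‖ ^ 2) (ball 0 1)) (R : ℂ[X]) (K j : ℕ) :
    ‖PowerSeries.coeff j ((R : PowerSeries ℂ) * X')‖ ^ 2 ≤
      ((K : ℝ) + j + 1) * sq (fun z => (X ^ K * R).eval z * Y z) 1 := by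
  have h1 : TS (fun z => (X ^ K * R).eval z * Y z) (((X ^ K * R : ℂ[X]) : PowerSeries ℂ) * X') :=
    ts_mul (ts_poly _) hX
  have h2 := area_series h1 zero_le_one le_rfl (int_mul (ps_diff hX).continuousOn hYi _)
  have h3 := le_hasSum h2 (j + K) fun k _ => by positivity
  have h4 : PowerSeries.coeff (j + K) (((X ^ K * R : ℂ[X]) : PowerSeries ℂ) * X') =
      PowerSeries.coeff j ((R : PowerSeries ℂ) * X') := by
    rw [Polynomial.coe_mul, Polynomial.coe_pow, Polynomial.coe_X, mul_assoc,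
      PowerSeries.coeff_X_pow_mul]
  rw [h4, one_pow] at h3
  push_cast at h3
  have h5 : (0 : ℝ) < (j : ℝ) + K + 1 := by positivity
  rw [mul_one_div, div_le_iff₀ h5] at h3
  calc _ ≤ sq (fun z => (X ^ K * R).eval z * Y z) 1 * ((j : ℝ) + K + 1) := h3
    _ = _ := by ring

theorem dom_poly {c t : ℝ} (h0 : 0 < c) (h1 : c < 1) (ht : 0 ≤ t) {Y : ℂ → ℂ}
    (hY : DifferentiableOn ℂ Y (ball 0 1)) (hYi : IntegrableOn (fun z => ‖Y z‖ ^ 2) (ball 0 1))
    (P q : ℂ[X]) (h : ∀ z : ℂ, c ≤ ‖z‖ → ‖z‖ < 1 → ‖P.eval z‖ ≤ t * ‖q.eval z‖) :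
    KF c ^ 2 * sq (fun z => P.eval z * Y z) 1 ≤ t ^ 2 * sq (fun z => q.eval z * Y z) 1 := by
  refine dom_norm h0 h1 ht ((Polynomial.differentiable P).differentiableOn.mul hY)
    (int_mul hY.continuousOn hYi P) ((Polynomial.differentiable q).differentiableOn.mul hY)
    (int_mul hY.continuousOn hYi q) fun z hz hz1 => ?_
  rw [norm_mul, norm_mul, ← mul_assoc]
  exact mul_le_mul_of_nonneg_right (h z hz hz1) (norm_nonneg _)

theorem unimod {c : ℝ} (h0 : 0 < c) (h1 : c < 1) {f g Y : ℂ → ℂ} (h : Ext c f g) {p q : ℂ[X]}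
    (hpq : IsCoprime p q) (hY : DifferentiableOn ℂ Y (ball 0 1))
    (hYi : IntegrableOn (fun z => ‖Y z‖ ^ 2) (ball 0 1))
    (hf : ∀ z ∈ ball (0 : ℂ) 1, f z = p.eval z * Y z)
    (hg : ∀ z ∈ ball (0 : ℂ) 1, g z = q.eval z * Y z) {d : ℕ} (hp : p.natDegree ≤ d)
    (hq : q.natDegree ≤ d) :
    p * rv d p = C ((KF c : ℂ) ^ 2) * (q * rv d q) := by
  set F := KF c with hF
  have hF0 : 0 < F := kf_pos' h0 h1
  have hY0 : ∃ z ∈ ball (0 : ℂ) 1, Y z ≠ 0 := by
    by_contra hcon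
    push Not at hcon
    have h2 : ∫ z in ball (0 : ℂ) 1, ‖f z‖ ^ 2 = 0 := by
      rw [setIntegral_congr_fun (g := fun _ => (0 : ℝ)) measurableSet_ball]
      · simp
      · intro z hz
        simp only
        rw [hf z hz, hcon z hz, mul_zero, norm_zero]
        ring
    have h3 := h.1.2.2
    rw [h2, mul_zero] at h3
    exact zero_ne_one h3
  have hdom : ∀ z : ℂ, c ≤ ‖z‖ → ‖z‖ ≤ 1 → ‖p.eval z‖ ≤ F * ‖q.eval z‖ := by
    intro z hz hz1
    refine poly_dom h0 hY hY0 (fun w hw hw1 => ?_) hz hz1 h1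
    have h2 := h.2.2 w hw hw1
    rwa [hf w (by rwa [mem_ball_zero_iff]), hg w (by rwa [mem_ball_zero_iff])] at h2
  have hq0 : ∀ z : ℂ, c ≤ ‖z‖ → ‖z‖ ≤ 1 → q.eval z ≠ 0 := by
    intro z hz hz1 h2
    have h3 := hdom z hz hz1
    rw [h2, norm_zero, mul_zero] at h3
    have h4 : p.eval z = 0 := norm_le_zero_iff.1 h3
    obtain ⟨u, v, huv⟩ := hpq
    have h5 := congrArg (Polynomial.eval z) huv
    rw [eval_add, eval_mul, eval_mul, h2, h4, mul_zero, mul_zero, add_zero, eval_one] at h5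
    exact zero_ne_one h5
  by_contra hne
  obtain ⟨R, hR⟩ : ∃ R : ℂ[X], R = C ((F : ℂ) ^ 2) * (q * rv d q) - p * rv d p := ⟨_, rfl⟩
  have hR0 : R ≠ 0 := fun h2 => hne (sub_eq_zero.1 (hR ▸ h2)).symm
  have hRn : ∀ z : ℂ, ‖z‖ = 1 → ‖R.eval z‖ = F ^ 2 * ‖q.eval z‖ ^ 2 - ‖p.eval z‖ ^ 2 := by
    intro z hz
    have h2 : R.eval z = z ^ d * ((F ^ 2 * ‖q.eval z‖ ^ 2 - ‖p.eval z‖ ^ 2 : ℝ) : ℂ) := by
      rw [hR, eval_sub, eval_mul, eval_mul, eval_mul, eval_C, rv_eval hp hz, rv_eval hq hz]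
      have e1 := Complex.mul_conj (q.eval z)
      have e2 := Complex.mul_conj (p.eval z)
      rw [Complex.normSq_eq_norm_sq] at e1 e2
      push_cast at e1 e2 ⊢
      linear_combination (z ^ d * (F : ℂ) ^ 2) * e1 - z ^ d * e2
    have h3 : 0 ≤ F ^ 2 * ‖q.eval z‖ ^ 2 - ‖p.eval z‖ ^ 2 := by
      have h4 := hdom z (hz ▸ h1.le) hz.le
      have h5 : ‖p.eval z‖ ^ 2 ≤ (F * ‖q.eval z‖) ^ 2 := pow_le_pow_left₀ (norm_nonneg _) h4 2
      rw [mul_pow] at h5
      linarith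
    rw [h2, norm_mul, norm_pow, hz, one_pow, one_mul, Complex.norm_real, Real.norm_of_nonneg h3]
  -- bounds
  obtain ⟨Qb, hQb⟩ := (isCompact_closedBall (0 : ℂ) 1).exists_bound_of_continuousOn
    (f := fun z : ℂ => q.eval z) (by fun_prop)
  obtain ⟨Rb, hRb⟩ := (isCompact_closedBall (0 : ℂ) 1).exists_bound_of_continuousOn
    (f := fun z : ℂ => R.eval z) (by fun_prop)
  have hAc : IsCompact {z : ℂ | c ≤ ‖z‖ ∧ ‖z‖ ≤ 1} := by
    refine (isCompact_closedBall (0 : ℂ) 1).of_isClosed_subset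
      ((isClosed_le continuous_const continuous_norm).inter
        (isClosed_le continuous_norm continuous_const)) fun z hz => ?_
    rw [mem_closedBall_zero_iff]
    exact hz.2
  obtain ⟨m, hm⟩ := hAc.exists_bound_of_continuousOn (f := fun z : ℂ => (q.eval z)⁻¹)
    (ContinuousOn.inv₀ (Polynomial.continuous q).continuousOn fun z hz => hq0 z hz.1 hz.2)
  have hQ0 : 0 ≤ Qb := (norm_nonneg _).trans (hQb 0 (by simp))
  have hRb0 : 0 ≤ Rb := (norm_nonneg _).trans (hRb 0 (by simp))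
  have hm1 : ∀ z : ℂ, c ≤ ‖z‖ → ‖z‖ ≤ 1 → 1 ≤ m * ‖q.eval z‖ := by
    intro z hz hz1
    have h2 := hm z ⟨hz, hz1⟩
    rw [norm_inv] at h2
    have h3 := norm_pos_iff.2 (hq0 z hz hz1)
    calc (1 : ℝ) = ‖q.eval z‖⁻¹ * ‖q.eval z‖ := (inv_mul_cancel₀ h3.ne').symm
      _ ≤ m * ‖q.eval z‖ := mul_le_mul_of_nonneg_right h2 h3.le
  have hm0 : 0 ≤ m := by
    have h2 : ‖(1 : ℂ)‖ = 1 := norm_one
    have h3 := hm 1 ⟨by rw [h2]; exact h1.le, h2.le⟩
    exact (norm_nonneg _).trans h3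
  obtain ⟨M, hM⟩ : ∃ M : ℝ, M = 2 * F * Qb + 1 := ⟨_, rfl⟩
  have hM0 : 0 < M := by rw [hM]; positivity
  obtain ⟨D, hD⟩ : ∃ D : ℝ, D = Rb / M * m := ⟨_, rfl⟩
  have hD0 : 0 ≤ D := by rw [hD]; positivity
  -- domination
  have hann : ∀ (K : ℕ) (s : ℂ), ‖s‖ = 1 / M → ∀ z : ℂ, c ≤ ‖z‖ → ‖z‖ < 1 →
      ‖(p + C s * (X ^ K * R)).eval z‖ ≤ (F + D * c ^ K) * ‖q.eval z‖ := by
    intro K s hs z hz hz1
    refine max_ann hq0 (fun w hw => ?_) hz hz1
    have hwA : c ≤ ‖w‖ ∧ ‖w‖ ≤ 1 := by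
      rcases hw with hw | hw
      · exact ⟨hw.ge, by rw [hw]; exact h1.le⟩
      · exact ⟨by rw [hw]; exact h1.le, hw.le⟩
    have hwb : w ∈ closedBall (0 : ℂ) 1 := by
      rw [mem_closedBall_zero_iff]
      exact hwA.2
    have e1 : ‖(p + C s * (X ^ K * R)).eval w‖ ≤
        ‖p.eval w‖ + 1 / M * (‖w‖ ^ K * ‖R.eval w‖) := by
      rw [eval_add, eval_mul, eval_mul, eval_C, eval_pow, eval_X]
      refine (norm_add_le _ _).trans (le_of_eq ?_)
      rw [norm_mul, norm_mul, norm_pow, hs]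
    have hpw := hdom w hwA.1 hwA.2
    have hqn := norm_nonneg (q.eval w)
    have hpn := norm_nonneg (p.eval w)
    rcases hw with hw | hw
    · -- the inner circle
      have e2 : 1 / M * (‖w‖ ^ K * ‖R.eval w‖) ≤ D * c ^ K * ‖q.eval w‖ := by
        rw [hw]
        have e3 : 1 / M * (c ^ K * ‖R.eval w‖) ≤ 1 / M * (c ^ K * Rb) := by
          gcongr
          exact hRb w hwb
        have e4 : 1 / M * (c ^ K * Rb) * 1 ≤ 1 / M * (c ^ K * Rb) * (m * ‖q.eval w‖) :=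
          mul_le_mul_of_nonneg_left (hm1 w hwA.1 hwA.2) (by positivity)
        calc 1 / M * (c ^ K * ‖R.eval w‖) ≤ 1 / M * (c ^ K * Rb) * (m * ‖q.eval w‖) := by linarith
          _ = D * c ^ K * ‖q.eval w‖ := by rw [hD]; ring
      calc _ ≤ ‖p.eval w‖ + 1 / M * (‖w‖ ^ K * ‖R.eval w‖) := e1
        _ ≤ F * ‖q.eval w‖ + D * c ^ K * ‖q.eval w‖ := add_le_add hpw e2
        _ = _ := by ring
    · -- the outer circle
      have e2 : 1 / M * (‖w‖ ^ K * ‖R.eval w‖) ≤ F * ‖q.eval w‖ - ‖p.eval w‖ := by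
        rw [hw, one_pow, one_mul, hRn w hw]
        have e3 : F ^ 2 * ‖q.eval w‖ ^ 2 - ‖p.eval w‖ ^ 2 =
            (F * ‖q.eval w‖ - ‖p.eval w‖) * (F * ‖q.eval w‖ + ‖p.eval w‖) := by ring
        have e4 : F * ‖q.eval w‖ + ‖p.eval w‖ ≤ M := by
          have e5 : F * ‖q.eval w‖ ≤ F * Qb := mul_le_mul_of_nonneg_left (hQb w hwb) hF0.le
          rw [hM]
          linarith
        rw [e3, one_div, inv_mul_le_iff₀ hM0, mul_comm M]
        exact mul_le_mul_of_nonneg_left e4 (by linarith)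
      have e6 : 0 ≤ D * c ^ K * ‖q.eval w‖ := by positivity
      calc _ ≤ ‖p.eval w‖ + 1 / M * (‖w‖ ^ K * ‖R.eval w‖) := e1
        _ ≤ F * ‖q.eval w‖ := by linarith
        _ ≤ _ := by linarith
  -- norms
  have hYc := hY.continuousOn
  have hp1 : sq (fun z => p.eval z * Y z) 1 = 1 := by
    rw [← sq_congr hf]
    exact h.1.2.2
  have hq1 : sq (fun z => q.eval z * Y z) 1 = 1 := by
    rw [← sq_congr hg]
    exact h.2.1.2.2
  have hnorm : ∀ (K : ℕ) (s : ℂ), ‖s‖ = 1 / M →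
      F ^ 2 * sq (fun z => (p + C s * (X ^ K * R)).eval z * Y z) 1 ≤ (F + D * c ^ K) ^ 2 := by
    intro K s hs
    have h2 := dom_poly h0 h1 (t := F + D * c ^ K) (by positivity) hY hYi
      (p + C s * (X ^ K * R)) q (hann K s hs)
    rwa [hq1, mul_one] at h2
  obtain ⟨X', hX'⟩ : ∃ X' : PowerSeries ℂ, TS Y X' := by
    obtain ⟨a, ha⟩ := ps_exists hY
    refine ⟨PowerSeries.mk a, fun z hz => ?_⟩
    simp only [PowerSeries.coeff_mk]
    exact ha z hz
  have hX0 : X' ≠ 0 := by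
    intro h2
    obtain ⟨z, hz, hz2⟩ := hY0
    have h3 := hX' z hz
    simp only [h2, map_zero, zero_mul] at h3
    exact hz2 (h3.unique hasSum_zero)
  have hRX : (R : PowerSeries ℂ) * X' ≠ 0 :=
    mul_ne_zero (fun h2 => hR0 (Polynomial.coe_eq_zero_iff.1 h2)) hX0
  obtain ⟨j, hj⟩ : ∃ j, PowerSeries.coeff j ((R : PowerSeries ℂ) * X') ≠ 0 := by
    by_contra hcon
    push Not at hcon
    exact hRX (PowerSeries.ext fun n => by rw [hcon n, map_zero])
  set ρ : ℝ := ‖PowerSeries.coeff j ((R : PowerSeries ℂ) * X')‖ ^ 2 with hρ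
  have hρ0 : 0 < ρ := by positivity
  have key : ∀ K : ℕ, F ^ 2 * ρ / M ^ 2 ≤
      (2 * F * D + D ^ 2) * (((K : ℝ) + j + 1) * c ^ K) := by
    intro K
    have e1 := hnorm K ((1 / M : ℝ) : ℂ) (by
      rw [Complex.norm_real, Real.norm_of_nonneg (by positivity)])
    have e2 := hnorm K (-((1 / M : ℝ) : ℂ)) (by
      rw [norm_neg, Complex.norm_real, Real.norm_of_nonneg (by positivity)])
    have e3 := par_sq hYc hYi p (C ((1 / M : ℝ) : ℂ) * (X ^ K * R))
    have e4 : p - C ((1 / M : ℝ) : ℂ) * (X ^ K * R) =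
        p + C (-((1 / M : ℝ) : ℂ)) * (X ^ K * R) := by
      rw [C_neg]
      ring
    have e5 : sq (fun z => (C ((1 / M : ℝ) : ℂ) * (X ^ K * R)).eval z * Y z) 1 =
        (1 / M) ^ 2 * sq (fun z => (X ^ K * R).eval z * Y z) 1 := by
      rw [← sq_smul]
      congr 1
      funext z
      rw [eval_mul, eval_C, mul_assoc]
    rw [e4, hp1, e5] at e3
    have e6 := low_sq hX' hYi R K j
    have hc1 : c ^ K ≤ 1 := pow_le_one₀ h0.le h1.le
    have hcp : 0 < c ^ K := by positivity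
    set N := sq (fun z => (X ^ K * R).eval z * Y z) 1
    have e7 : F ^ 2 * ((1 / M) ^ 2 * N) ≤ (2 * F * D + D ^ 2) * c ^ K := by
      have e8 : F ^ 2 * (2 * 1 + 2 * ((1 / M) ^ 2 * N)) ≤ 2 * (F + D * c ^ K) ^ 2 := by
        rw [← e3, mul_add]
        linarith
      have e9 : D ^ 2 * (c ^ K) ^ 2 ≤ D ^ 2 * c ^ K := by
        refine mul_le_mul_of_nonneg_left ?_ (by positivity)
        nlinarith
      nlinarith
    have e10 : (0 : ℝ) < (K : ℝ) + j + 1 := by positivity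
    calc F ^ 2 * ρ / M ^ 2 = F ^ 2 * (1 / M) ^ 2 * ρ := by
          field_simp
      _ ≤ F ^ 2 * (1 / M) ^ 2 * (((K : ℝ) + j + 1) * N) :=
          mul_le_mul_of_nonneg_left e6 (by positivity)
      _ = ((K : ℝ) + j + 1) * (F ^ 2 * ((1 / M) ^ 2 * N)) := by ring
      _ ≤ ((K : ℝ) + j + 1) * ((2 * F * D + D ^ 2) * c ^ K) :=
          mul_le_mul_of_nonneg_left e7 e10.le
      _ = _ := by ring
  have hlim : Tendsto (fun K : ℕ => (2 * F * D + D ^ 2) * (((K : ℝ) + j + 1) * c ^ K)) atTop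
      (𝓝 0) := by
    have l1 := tendsto_self_mul_const_pow_of_lt_one h0.le h1
    have l2 := (tendsto_pow_atTop_nhds_zero_of_lt_one h0.le h1).const_mul ((j : ℝ) + 1)
    have l3 := (l1.add l2).const_mul (2 * F * D + D ^ 2)
    rw [mul_zero, add_zero, mul_zero] at l3
    refine l3.congr fun K => ?_
    ring
  have h2 := ge_of_tendsto' hlim key
  have h3 : 0 < F ^ 2 * ρ / M ^ 2 := by positivity
  linarith

end Pool.Agent.Helper23.KU
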