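import Pool.Agent.Helper23.KU.Defs

/-!
# KU, piece F5: growth and density in the Bergman space, in terms of coefficients
-/

set_option autoImplicit false

namespace Pool.Agent.Helper23.KU

open Polynomial Filter Topology Metric MeasureTheory

/-- The coefficients of the power series `V` are those of a function of the Bergman space. -/
def Sm (V : PowerSeries ℂ) : Prop :=
  Summable fun m : ℕ => ‖PowerSeries.coeff m V‖ ^ 2 / ((m : ℝ) + 1)

theorem sm_of_ts {Y : ℂ → ℂ} (hYi : IntegrableOn (fun z => ‖Y z‖ ^ 2) (ball 0 1))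
    {X : PowerSeries ℂ} (hX : TS Y X) : Sm X := by
  have h := (Pool.Agent.Helper23.KB.area_series hX zero_le_one le_rfl hYi).summable
  refine h.congr fun m => ?_
  rw [one_pow, mul_one_div]

theorem sm_add {V V' : PowerSeries ℂ} (h : Sm V) (h' : Sm V') : Sm (V + V') := by
  refine Summable.of_nonneg_of_le (fun m => by positivity) (fun m => ?_)
    ((Summable.mul_left 2 h).add (Summable.mul_left 2 h'))
  rw [map_add, ← mul_div_assoc, ← mul_div_assoc, ← add_div]
  refine div_le_div_of_nonneg_right ?_ (by positivity)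
  have h1 := norm_add_le (PowerSeries.coeff m V) (PowerSeries.coeff m V')
  have h2 := norm_nonneg (PowerSeries.coeff m V + PowerSeries.coeff m V')
  nlinarith [sq_nonneg (‖PowerSeries.coeff m V‖ - ‖PowerSeries.coeff m V'‖)]

theorem coeff_cx (c : ℂ) (i : ℕ) (X : PowerSeries ℂ) (k : ℕ) :
    PowerSeries.coeff (k + i) (((monomial i c : ℂ[X]) : PowerSeries ℂ) * X) =
      c * PowerSeries.coeff k X := by
  rw [← C_mul_X_pow_eq_monomial, Polynomial.coe_mul, Polynomial.coe_C, Polynomial.coe_pow,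
    Polynomial.coe_X, mul_assoc, PowerSeries.coeff_C_mul, PowerSeries.coeff_X_pow_mul]

theorem coeff_cx0 (c : ℂ) (i : ℕ) (X : PowerSeries ℂ) {m : ℕ} (h : m < i) :
    PowerSeries.coeff m (((monomial i c : ℂ[X]) : PowerSeries ℂ) * X) = 0 := by
  rw [← C_mul_X_pow_eq_monomial, Polynomial.coe_mul, Polynomial.coe_C, Polynomial.coe_pow,
    Polynomial.coe_X, mul_assoc, PowerSeries.coeff_C_mul, PowerSeries.coeff_X_pow_mul',
    if_neg (by omega), mul_zero]

theorem sm_mono {X : PowerSeries ℂ} (h : Sm X) (i : ℕ) (c : ℂ) :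
    Sm (((monomial i c : ℂ[X]) : PowerSeries ℂ) * X) := by
  refine (summable_nat_add_iff i).1 ?_
  refine Summable.of_nonneg_of_le (fun m => by positivity) (fun m => ?_)
    (Summable.mul_left (‖c‖ ^ 2) h)
  rw [coeff_cx, norm_mul, mul_pow, ← mul_div_assoc]
  refine div_le_div_of_nonneg_left (by positivity) (by positivity) ?_
  push_cast
  have : (0 : ℝ) ≤ (i : ℝ) := by positivity
  linarith

theorem sm_mul {X : PowerSeries ℂ} (h : Sm X) (a : ℂ[X]) : Sm ((a : PowerSeries ℂ) * X) := by
  induction a using Polynomial.induction_on' with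
  | add p q hp hq =>
    rw [Polynomial.coe_add, add_mul]
    exact sm_add hp hq
  | monomial n c => exact sm_mono h n c

/-- The terms of the pairing of two series. -/
noncomputable def pt (V W : PowerSeries ℂ) (m : ℕ) : ℂ :=
  PowerSeries.coeff m V * ((starRingEnd ℂ) (PowerSeries.coeff m W) / ((m : ℂ) + 1))

theorem norm_cast_one (m : ℕ) : ‖((m : ℂ) + 1)‖ = (m : ℝ) + 1 := by
  have h : ((m : ℂ) + 1) = (((m + 1 : ℕ) : ℝ) : ℂ) := by
    push_cast
    ring
  rw [h, Complex.norm_real, Real.norm_of_nonneg (by positivity)]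
  push_cast
  ring

theorem pt_summable {V W : PowerSeries ℂ} (hV : Sm V) (hW : Sm W) : Summable (pt V W) := by
  refine Summable.of_norm_bounded ((Summable.mul_left (1 / 2) hV).add
    (Summable.mul_left (1 / 2) hW)) fun m => ?_
  unfold pt
  rw [norm_mul, norm_div, RCLike.norm_conj, norm_cast_one, ← mul_div_assoc, ← mul_div_assoc,
    ← mul_div_assoc, ← add_div]
  refine div_le_div_of_nonneg_right ?_ (by positivity)
  nlinarith [sq_nonneg (‖PowerSeries.coeff m V‖ - ‖PowerSeries.coeff m W‖)]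

/-- The truncated power series. -/
noncomputable def tr (X : PowerSeries ℂ) (n : ℕ) : ℂ[X] :=
  ∑ k ∈ Finset.range n, monomial k (PowerSeries.coeff k X)

theorem ip_mono_tr (W X : PowerSeries ℂ) (i : ℕ) (c : ℂ) (n : ℕ) :
    ip W (monomial i c * tr X n) = ∑ k ∈ Finset.range n,
      pt (((monomial i c : ℂ[X]) : PowerSeries ℂ) * X) W (k + i) := by
  unfold tr pt
  rw [Finset.mul_sum, map_sum]
  refine Finset.sum_congr rfl fun k _ => ?_
  rw [monomial_mul_monomial, ip_monomial, coeff_cx, add_comm i k]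
  ring

theorem lim_mono {W X : PowerSeries ℂ} (hW : Sm W) (hX : Sm X) (i : ℕ) (c : ℂ) :
    Tendsto (fun n => ip W (monomial i c * tr X n)) atTop
      (𝓝 (∑' m, pt (((monomial i c : ℂ[X]) : PowerSeries ℂ) * X) W m)) := by
  have h := pt_summable (sm_mono hX i c) hW
  have h0 : ∑ m ∈ Finset.range i, pt (((monomial i c : ℂ[X]) : PowerSeries ℂ) * X) W m = 0 := by
    refine Finset.sum_eq_zero fun m hm => ?_
    unfold pt
    rw [coeff_cx0 c i X (Finset.mem_range.1 hm), zero_mul]
  have h1 := h.sum_add_tsum_nat_add i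
  rw [h0, zero_add] at h1
  rw [← h1]
  have h2 := ((summable_nat_add_iff i).2 h).hasSum.tendsto_sum_nat
  exact h2.congr fun n => (ip_mono_tr W X i c n).symm

theorem lim_mul {W X : PowerSeries ℂ} (hW : Sm W) (hX : Sm X) (a : ℂ[X]) :
    Tendsto (fun n => ip W (a * tr X n)) atTop
      (𝓝 (∑' m, pt ((a : PowerSeries ℂ) * X) W m)) := by
  induction a using Polynomial.induction_on' with
  | add p q hp hq =>
    have h := hp.add hq
    have e : ∑' m, pt (((p + q : ℂ[X]) : PowerSeries ℂ) * X) W m =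
        ∑' m, pt ((p : PowerSeries ℂ) * X) W m + ∑' m, pt ((q : PowerSeries ℂ) * X) W m := by
      rw [← (pt_summable (sm_mul hX p) hW).tsum_add (pt_summable (sm_mul hX q) hW)]
      refine tsum_congr fun m => ?_
      unfold pt
      rw [Polynomial.coe_add, add_mul, map_add, add_mul]
    rw [e]
    refine h.congr fun n => ?_
    rw [add_mul, map_add]
  | monomial n c => exact lim_mono hW hX n c

theorem term_lim {W : PowerSeries ℂ} (hW : Sm W) :
    Tendsto (fun m : ℕ => (starRingEnd ℂ) (PowerSeries.coeff m W) / ((m : ℂ) + 1)) atTop (𝓝 0) := by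
  rw [tendsto_zero_iff_norm_tendsto_zero]
  have h := hW.tendsto_atTop_zero
  have h1 := h.sqrt
  rw [Real.sqrt_zero] at h1
  refine squeeze_zero (fun m => norm_nonneg _) (fun m => ?_) h1
  rw [norm_div, RCLike.norm_conj, norm_cast_one]
  refine Real.le_sqrt_of_sq_le ?_
  rw [div_pow]
  refine div_le_div_of_nonneg_left (by positivity) (by positivity) ?_
  have : (0 : ℝ) ≤ (m : ℝ) := by positivity
  nlinarith

theorem ip_mul_X_pow {W : PowerSeries ℂ} (hW : Sm W) (c : ℂ[X]) :
    Tendsto (fun N : ℕ => ip W (c * X ^ N)) atTop (𝓝 0) := by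
  induction c using Polynomial.induction_on' with
  | add p q hp hq =>
    have h := hp.add hq
    rw [add_zero] at h
    refine h.congr fun n => ?_
    rw [add_mul, map_add]
  | monomial n c =>
    have h := ((tendsto_add_atTop_iff_nat n).2 (term_lim hW)).mul_const c
    rw [zero_mul] at h
    refine h.congr fun N => ?_
    rw [← monomial_one_right_eq_X_pow, monomial_mul_monomial, ip_monomial, mul_one, add_comm n N]

theorem growth {Y : ℂ → ℂ} (hYi : IntegrableOn (fun z => ‖Y z‖ ^ 2) (ball 0 1))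
    {X : PowerSeries ℂ} (hX : TS Y X) (a : ℂ[X]) {z₀ : ℂ} (hz : 1 ≤ ‖z₀‖) {p : ℂ[X]} {l : ℂ}
    (h : ∀ Q : ℂ[X], ip ((a : PowerSeries ℂ) * X) (a * (p * Q)) = l * Q.eval z₀) : l = 0 := by
  have h1 := ip_mul_X_pow (sm_mul (sm_of_ts hYi hX) a) (a * p)
  have h2 : Tendsto (fun N : ℕ => ‖l * z₀ ^ N‖) atTop (𝓝 0) := by
    have h3 := h1.norm
    rw [norm_zero] at h3
    refine h3.congr fun N => ?_
    rw [mul_assoc, h, eval_pow, eval_X]
  have h4 : ‖l‖ ≤ 0 := by
    refine ge_of_tendsto' h2 fun N => ?_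
    rw [norm_mul, norm_pow]
    exact le_mul_of_one_le_right (norm_nonneg l) (one_le_pow₀ hz)
  exact norm_le_zero_iff.1 h4

theorem dens {Y : ℂ → ℂ} (hYi : IntegrableOn (fun z => ‖Y z‖ ^ 2) (ball 0 1))
    {X : PowerSeries ℂ} (hX : TS Y X) (a : ℂ[X])
    (h : ∀ P : ℂ[X], ip ((a : PowerSeries ℂ) * X) (a * P) = 0) :
    ∀ z ∈ ball (0 : ℂ) 1, a.eval z * Y z = 0 := by
  intro z hz
  have hX' := sm_of_ts hYi hX
  have hW := sm_mul hX' a
  have h1 := lim_mul hW hX' a
  simp only [h] at h1
  have h2 := tendsto_nhds_unique h1 tendsto_const_nhds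
  have h3 : ∀ m, pt ((a : PowerSeries ℂ) * X) ((a : PowerSeries ℂ) * X) m =
      ((‖PowerSeries.coeff m ((a : PowerSeries ℂ) * X)‖ ^ 2 / ((m : ℝ) + 1) : ℝ) : ℂ) := by
    intro m
    unfold pt
    rw [← mul_div_assoc, Complex.mul_conj, Complex.normSq_eq_norm_sq]
    push_cast
    rfl
  simp only [h3] at h2
  rw [← Complex.ofReal_tsum, Complex.ofReal_eq_zero] at h2
  have h4 := (Summable.hasSum_iff hW).2 h2
  have h5 := (hasSum_zero_iff_of_nonneg fun m => by positivity).1 h4
  have h6 : (a : PowerSeries ℂ) * X = 0 := by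
    ext m
    have h7 := congrFun h5 m
    simp only [Pi.zero_apply] at h7
    rw [map_zero]
    have h8 : ‖PowerSeries.coeff m ((a : PowerSeries ℂ) * X)‖ ^ 2 = 0 := by
      rcases div_eq_zero_iff.1 h7 with h9 | h9
      · exact h9
      · exfalso
        have : (0 : ℝ) < (m : ℝ) + 1 := by positivity
        linarith
    exact norm_eq_zero.1 (pow_eq_zero_iff two_ne_zero |>.1 h8)
  rcases mul_eq_zero.1 h6 with h7 | h7
  · have h8 : a = 0 := Polynomial.coe_eq_zero_iff.1 h7
    rw [h8, eval_zero, zero_mul]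
  · have h8 := hX z hz
    rw [h7] at h8
    simp only [map_zero, zero_mul] at h8
    rw [h8.unique hasSum_zero, mul_zero]

end Pool.Agent.Helper23.KU
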