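import Pool.Agent.Helper23.KU.Defs

/-!
# KU, piece F2: the algebraic core
-/

set_option autoImplicit false
set_option linter.unusedVariables false

namespace Pool.Agent.Helper23.KU

open Polynomial

/-- a linear form that is `l` on the multiples of `a`, evaluated at the derivative of `a φ`,
`φ = (z - z₀) ^ (k + 1) r b u ^ 2`, `a = (z - z₀) ^ m r` -/
theorem core_eval {l L : ℂ[X] →ₗ[ℂ] ℂ} {a r b u : ℂ[X]} {z₀ lam : ℂ} {m k : ℕ}
    (ha : a = (X - C z₀) ^ m * r) (e : ∀ P, L (a * P) = l P)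
    (hlam : ∀ Q, l ((X - C z₀) ^ k * u * Q) = lam * Q.eval z₀) :
    L (derivative (a * ((X - C z₀) ^ (k + 1) * (r * b * u ^ 2)))) =
      lam * (((m : ℂ) + (k + 1)) * (r * b * u).eval z₀) := by
  have h1 : a * ((X - C z₀) ^ (k + 1) * (r * b * u ^ 2)) =
      (X - C z₀) ^ (m + k + 1) * (r ^ 2 * b * u ^ 2) := by
    rw [ha]
    ring
  have h2 : derivative (a * ((X - C z₀) ^ (k + 1) * (r * b * u ^ 2))) =
      a * ((X - C z₀) ^ k * u * (C ((m : ℂ) + (k + 1)) * (r * b * u) + (X - C z₀) *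
        (2 * derivative r * b * u + r * derivative b * u + 2 * r * b * derivative u))) := by
    rw [h1, ha, derivative_mul, derivative_X_sub_C_pow, Nat.add_sub_cancel]
    simp only [derivative_mul, derivative_pow, Nat.cast_add, Nat.cast_one, Nat.cast_ofNat,
      map_add, map_one, Nat.add_one_sub_one, pow_one, map_ofNat]
    ring
  rw [h2, e, hlam]
  simp only [eval_add, eval_mul, eval_C, eval_sub, eval_X, sub_self, zero_mul, add_zero]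

theorem core {l H : ℂ[X] →ₗ[ℂ] ℂ} {a₁ a₂ a₃ : ℂ[X]} {t : ℝ} (ht : 0 < t)
    (L₁ L₂ L₃ : ℂ[X] →ₗ[ℂ] ℂ)
    (e₁ : ∀ P, L₁ (a₁ * P) = l P) (e₂ : ∀ P, L₂ (a₂ * P) = l P) (e₃ : ∀ P, L₃ (a₃ * P) = l P)
    (h₁ : ∀ P, L₁ (derivative (a₁ * P)) = H P) (h₂ : ∀ P, L₂ (derivative (a₂ * P)) = H P)
    (h₃ : ∀ P, L₃ (derivative (a₃ * P)) = t * H P)
    (n₁ : a₁ ≠ 0) (n₂ : a₂ ≠ 0) (n₃ : a₃ ≠ 0)
    (hE : derivative a₁ * a₂ - a₁ * derivative a₂ ≠ 0)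
    (hg : ∀ (z₀ : ℂ) (p : ℂ[X]), 1 ≤ ‖z₀‖ → (∀ Q, l (p * Q) = l p * Q.eval z₀) → l p = 0)
    (hl : ∃ P, l P ≠ 0) :
    ∃ z₀ : ℂ, ‖z₀‖ < 1 ∧ ∃ k : ℕ, 1 ≤ k ∧
      t * (k + a₁.rootMultiplicity z₀) = k + a₃.rootMultiplicity z₀ ∧
      t * (k + a₂.rootMultiplicity z₀) = k + a₃.rootMultiplicity z₀ := by
  classical
  -- the ideal of the polynomials annihilated by `l`
  have hEl : ∀ x, l ((derivative a₁ * a₂ - a₁ * derivative a₂) * x) = 0 := by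
    intro x
    have k1 : H (a₁ * (a₂ * x)) =
        l (2 * derivative a₁ * (a₂ * x) + a₁ * derivative (a₂ * x)) := by
      rw [← h₁, ← e₁]
      congr 1
      rw [derivative_mul, derivative_mul (f := a₁)]
      ring
    have k2 : H (a₂ * (a₁ * x)) =
        l (2 * derivative a₂ * (a₁ * x) + a₂ * derivative (a₁ * x)) := by
      rw [← h₂, ← e₂]
      congr 1
      rw [derivative_mul, derivative_mul (f := a₂)]
      ring
    have k3 : a₁ * (a₂ * x) = a₂ * (a₁ * x) := by ring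
    rw [k3, k2] at k1
    have k4 : (derivative a₁ * a₂ - a₁ * derivative a₂) * x =
        (2 * derivative a₁ * (a₂ * x) + a₁ * derivative (a₂ * x)) -
          (2 * derivative a₂ * (a₁ * x) + a₂ * derivative (a₁ * x)) := by
      rw [derivative_mul, derivative_mul]
      ring
    rw [k4, map_sub, ← k1, sub_self]
  have hex : ∃ n : ℕ, ∃ p : ℂ[X], p ≠ 0 ∧ (∀ Q, l (p * Q) = 0) ∧ p.natDegree = n :=
    ⟨_, _, hE, hEl, rfl⟩
  obtain ⟨p₀, hp0, hpl, hpn⟩ := Nat.find_spec hex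
  have hmin : ∀ q : ℂ[X], q ≠ 0 → (∀ Q, l (q * Q) = 0) → p₀.natDegree ≤ q.natDegree := by
    intro q hq hql
    rw [hpn]
    exact Nat.find_min' hex ⟨q, hq, hql, rfl⟩
  -- `p₀` has a root
  have hdeg : p₀.degree ≠ 0 := by
    intro hd
    obtain ⟨P, hP⟩ := hl
    rw [Polynomial.eq_C_of_degree_eq_zero hd] at hpl hp0
    have hc : p₀.coeff 0 ≠ 0 := fun h => hp0 (by rw [h, C_0])
    have h4 := hpl (C (p₀.coeff 0)⁻¹ * P)
    rw [← mul_assoc, ← C_mul, mul_inv_cancel₀ hc, C_1, one_mul] at h4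
    exact hP h4
  obtain ⟨z₀, hz₀⟩ := IsAlgClosed.exists_root p₀ hdeg
  obtain ⟨u, hu, hu'⟩ := exists_eq_pow_rootMultiplicity_mul_and_not_dvd p₀ hp0 z₀
  have hkpos : 0 < p₀.rootMultiplicity z₀ := (rootMultiplicity_pos hp0).2 hz₀
  obtain ⟨k, hk⟩ := Nat.exists_eq_succ_of_ne_zero hkpos.ne'
  rw [hk, Nat.succ_eq_add_one] at hu
  have huz : u.eval z₀ ≠ 0 := fun h => hu' (dvd_iff_isRoot.2 h)
  set p₁ : ℂ[X] := (X - C z₀) ^ k * u with hp₁
  have hp01 : p₀ = (X - C z₀) * p₁ := by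
    rw [hu, hp₁]
    ring
  have hlam : ∀ Q, l (p₁ * Q) = l p₁ * Q.eval z₀ := by
    intro Q
    obtain ⟨w, hw⟩ := X_sub_C_dvd_sub_C_eval (a := z₀) (p := Q)
    have h5 : p₁ * Q = p₀ * w + Q.eval z₀ • p₁ := by
      rw [hp01, smul_eq_C_mul]
      linear_combination p₁ * hw
    rw [h5, map_add, hpl, map_smul, zero_add, smul_eq_mul, mul_comm]
  have hp1 : p₁ ≠ 0 := fun h => hp0 (by rw [hp01, h, mul_zero])
  have hne : l p₁ ≠ 0 := by
    intro h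
    have h6 := hmin p₁ hp1 fun Q => by rw [hlam, h, zero_mul]
    rw [hp01, natDegree_mul (X_sub_C_ne_zero z₀) hp1, natDegree_X_sub_C] at h6
    omega
  have hz : ‖z₀‖ < 1 := by
    by_contra h
    exact hne (hg z₀ p₁ (not_lt.1 h) hlam)
  obtain ⟨r₁, hr₁, hr₁'⟩ := exists_eq_pow_rootMultiplicity_mul_and_not_dvd a₁ n₁ z₀
  obtain ⟨r₂, hr₂, hr₂'⟩ := exists_eq_pow_rootMultiplicity_mul_and_not_dvd a₂ n₂ z₀
  obtain ⟨r₃, hr₃, hr₃'⟩ := exists_eq_pow_rootMultiplicity_mul_and_not_dvd a₃ n₃ z₀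
  have v₁ : r₁.eval z₀ ≠ 0 := fun h => hr₁' (dvd_iff_isRoot.2 h)
  have v₂ : r₂.eval z₀ ≠ 0 := fun h => hr₂' (dvd_iff_isRoot.2 h)
  have v₃ : r₃.eval z₀ ≠ 0 := fun h => hr₃' (dvd_iff_isRoot.2 h)
  have main : ∀ (a r : ℂ[X]) (L : ℂ[X] →ₗ[ℂ] ℂ) (m : ℕ), a = (X - C z₀) ^ m * r →
      r.eval z₀ ≠ 0 → (∀ P, L (a * P) = l P) → (∀ P, L (derivative (a * P)) = H P) →
      t * (((k + 1 : ℕ) : ℝ) + m) = ((k + 1 : ℕ) : ℝ) + a₃.rootMultiplicity z₀ := by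
    intro a r L m har hr hL hH
    have g1 := core_eval (l := l) (L := L) (b := r₃) (u := u) (lam := l p₁) (k := k) har hL hlam
    have g2 := core_eval (l := l) (L := L₃) (b := r) (u := u) (lam := l p₁) (k := k) hr₃ e₃ hlam
    rw [hH] at g1
    rw [h₃] at g2
    have g3 : (X - C z₀) ^ (k + 1) * (r₃ * r * u ^ 2) = (X - C z₀) ^ (k + 1) * (r * r₃ * u ^ 2) := by
      ring
    rw [g3, g1] at g2
    simp only [eval_mul] at g2
    have g4 : l p₁ * (r.eval z₀ * r₃.eval z₀ * u.eval z₀) ≠ 0 :=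
      mul_ne_zero hne (mul_ne_zero (mul_ne_zero hr v₃) huz)
    have g5 : (t : ℂ) * (((k + 1 : ℕ) : ℂ) + m) = ((k + 1 : ℕ) : ℂ) + a₃.rootMultiplicity z₀ := by
      refine mul_left_cancel₀ g4 ?_
      push_cast
      linear_combination g2
    exact_mod_cast g5
  exact ⟨z₀, hz, k + 1, by omega, main a₁ r₁ L₁ _ hr₁ v₁ e₁ h₁, main a₂ r₂ L₂ _ hr₂ v₂ e₂ h₂⟩

end Pool.Agent.Helper23.KU
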