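import Pool.Agent.Helper33.KU.Rat

/-!
# KU, piece Q2: the zero free part of the quotient
-/

set_option autoImplicit false

namespace Pool.Agent.Helper23.KU

open Polynomial Filter Topology Metric MeasureTheory Set
open Pool.Agent.Helper23.KB (Sph Dom KF Ext sq area_series ms_series kf_le kf_dn kf_nonneg int_cont)

/-- two functions which bound each other locally have an analytic quotient without zeros -/
theorem quot_ext {v w : ℂ → ℂ} (hv : DifferentiableOn ℂ v (ball 0 1))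
    (hw : DifferentiableOn ℂ w (ball 0 1)) (hv0 : ∃ z ∈ ball (0 : ℂ) 1, v z ≠ 0)
    (h : ∀ z ∈ ball (0 : ℂ) 1, ∃ K : ℝ, ∀ᶠ y in 𝓝 z, ‖w y‖ ≤ K * ‖v y‖ ∧ ‖v y‖ ≤ K * ‖w y‖) :
    ∃ ω : ℂ → ℂ, DifferentiableOn ℂ ω (ball 0 1) ∧ (∀ z ∈ ball (0 : ℂ) 1, ω z ≠ 0) ∧
      ∀ z ∈ ball (0 : ℂ) 1, w z = ω z * v z := by
  set q : ℂ → ℂ := fun z => w z / v z with hq
  set ω : ℂ → ℂ := fun z => limUnder (𝓝[≠] z) q with hω
  have dq : ∀ z ∈ ball (0 : ℂ) 1, v z ≠ 0 → DifferentiableAt ℂ q z := fun z hz hvz =>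
    (hw.differentiableAt (isOpen_ball.mem_nhds hz)).div
      (hv.differentiableAt (isOpen_ball.mem_nhds hz)) hvz
  have ω1 : ∀ z ∈ ball (0 : ℂ) 1, v z ≠ 0 → ω z = q z := fun z hz hvz =>
    ((dq z hz hvz).continuousAt.tendsto.mono_left nhdsWithin_le_nhds).limUnder_eq
  have dω : ∀ z ∈ ball (0 : ℂ) 1, DifferentiableAt ℂ ω z := by
    intro z hz
    by_cases hvz : v z = 0
    · obtain ⟨K, hK⟩ := h z hz
      have hiso := iso_zeros hv hv0 hz
      rw [eventually_nhdsWithin_iff] at hiso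
      have hball : ∀ᶠ y in 𝓝 z, y ∈ ball (0 : ℂ) 1 := isOpen_ball.mem_nhds hz
      obtain ⟨ρ, hρ, hsub⟩ := Metric.eventually_nhds_iff_ball.1 (hiso.and (hK.and hball))
      have hd : DifferentiableOn ℂ q (ball z ρ \ {z}) := fun y hy =>
        (dq y (hsub y hy.1).2.2 ((hsub y hy.1).1 hy.2)).differentiableWithinAt
      have hb : BddAbove (norm ∘ q '' (ball z ρ \ {z})) := by
        refine ⟨K, ?_⟩
        rintro _ ⟨y, hy, rfl⟩
        have hvy := (hsub y hy.1).1 hy.2
        show ‖w y / v y‖ ≤ K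
        rw [norm_div, div_le_iff₀ (norm_pos_iff.2 hvy)]
        exact (hsub y hy.1).2.1.1
      have hd2 := Complex.differentiableOn_update_limUnder_of_bddAbove
        (ball_mem_nhds z hρ) hd hb
      refine ((hd2.differentiableAt (ball_mem_nhds z hρ))).congr_of_eventuallyEq ?_
      filter_upwards [ball_mem_nhds z hρ] with y hy
      by_cases hyz : y = z
      · subst hyz
        rw [Function.update_self]
      · rw [Function.update_of_ne hyz]
        exact ω1 y (hsub y hy).2.2 ((hsub y hy).1 hyz)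
    · refine (dq z hz hvz).congr_of_eventuallyEq ?_
      have hvc := (hv.differentiableAt (isOpen_ball.mem_nhds hz)).continuousAt.eventually_ne hvz
      filter_upwards [hvc, isOpen_ball.mem_nhds hz] with y hy hyb
      exact ω1 y hyb hy
  refine ⟨ω, fun z hz => (dω z hz).differentiableWithinAt, fun z hz hzero => ?_, fun z hz => ?_⟩
  · obtain ⟨K, hK⟩ := h z hz
    have hiso := iso_zeros hv hv0 hz
    have hball : ∀ᶠ y in 𝓝[≠] z, y ∈ ball (0 : ℂ) 1 :=
      eventually_nhdsWithin_of_eventually_nhds (isOpen_ball.mem_nhds hz)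
    have hlow : ∀ᶠ y in 𝓝[≠] z, 1 ≤ K * ‖ω y‖ := by
      filter_upwards [hiso, hball, eventually_nhdsWithin_of_eventually_nhds hK] with y hy hyb hyK
      rw [ω1 y hyb hy]
      show 1 ≤ K * ‖w y / v y‖
      have hp := norm_pos_iff.2 hy
      rw [norm_div, ← mul_div_assoc, le_div_iff₀ hp, one_mul]
      exact hyK.2
    have hlim : Tendsto (fun y => K * ‖ω y‖) (𝓝[≠] z) (𝓝 (K * ‖ω z‖)) :=
      (((dω z hz).continuousAt.norm.tendsto).const_mul K).mono_left nhdsWithin_le_nhds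
    have h2 := ge_of_tendsto hlim hlow
    rw [hzero, norm_zero, mul_zero] at h2
    linarith
  · by_cases hvz : v z = 0
    · obtain ⟨K, hK⟩ := h z hz
      have h2 := hK.self_of_nhds.1
      rw [hvz, norm_zero, mul_zero] at h2
      rw [hvz, mul_zero]
      exact norm_le_zero_iff.1 h2
    · rw [ω1 z hz hvz, hq]
      simp only
      rw [div_mul_cancel₀ _ hvz]

/-- a bound with a continuous factor gives a bound with a constant -/
theorem loc_bound {a b : ℂ → ℂ} {φ : ℂ → ℝ} {z : ℂ} (hφ : ContinuousAt φ z)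
    (h : ∀ᶠ y in 𝓝 z, ‖a y‖ ≤ φ y * ‖b y‖) : ∀ᶠ y in 𝓝 z, ‖a y‖ ≤ (|φ z| + 1) * ‖b y‖ := by
  have h1 : ∀ᶠ y in 𝓝 z, φ y < |φ z| + 1 :=
    hφ.tendsto.eventually (gt_mem_nhds (lt_of_le_of_lt (le_abs_self _) (lt_add_one _)))
  filter_upwards [h, h1] with y hy hy1
  exact hy.trans (mul_le_mul_of_nonneg_right hy1.le (norm_nonneg _))

theorem chi_exists {c : ℝ} (h0 : 0 < c) (h1 : c < 1) {f g : ℂ → ℂ} (h : Ext c f g) {r ε : ℝ}
    (hr : r < 1) (hε : 0 < ε) (hlow : ∀ z : ℂ, r ≤ ‖z‖ → ‖z‖ < 1 → ε * ‖g z‖ ≤ ‖f z‖) :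
    ∃ (s t : Multiset ℂ) (χ : ℂ → ℂ), (∀ a ∈ s, ‖a‖ < 1) ∧ (∀ b ∈ t, ‖b‖ < 1) ∧
      DifferentiableOn ℂ χ (ball 0 1) ∧ (∀ z ∈ ball (0 : ℂ) 1, χ z ≠ 0) ∧
      ∀ z ∈ ball (0 : ℂ) 1, (s.map fun a => z - a).prod *
        (t.map fun b => 1 - (starRingEnd ℂ) b * z).prod * f z =
        (t.map fun b => z - b).prod * (s.map fun a => 1 - (starRingEnd ℂ) a * z).prod *
          χ z * g z := by
  have hF : 0 < KF c := kf_pos' h0 h1
  have hf : DifferentiableOn ℂ f (ball 0 1) := h.1.1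
  have hg : DifferentiableOn ℂ g (ball 0 1) := h.2.1.1
  have hR1 : max r c < 1 := max_lt hr h1
  obtain ⟨s, v, hs, hv, hv0, hgv⟩ := fin_zeros hg (ne_of_sph h.2.1) hR1
  obtain ⟨t, w, ht, hw, hw0, hfw⟩ := fin_zeros hf (ne_of_sph h.1) hR1
  have hs1 : ∀ a ∈ s, ‖a‖ < 1 := fun a ha => (hs a ha).trans_lt hR1
  have ht1 : ∀ b ∈ t, ‖b‖ < 1 := fun b hb => (ht b hb).trans_lt hR1
  have dP : ∀ m : Multiset ℂ, Differentiable ℂ fun z : ℂ => (m.map fun a => z - a).prod := by
    intro m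
    have e : (fun z : ℂ => (m.map fun a => z - a).prod) =
        fun z => ((m.map fun a => (X - C a : ℂ[X])).prod).eval z := by
      funext z
      rw [eval_prod_sub]
    rw [e]
    exact Polynomial.differentiable _
  have dP' : ∀ m : Multiset ℂ,
      Differentiable ℂ fun z : ℂ => (m.map fun a => 1 - (starRingEnd ℂ) a * z).prod := by
    intro m
    have e : (fun z : ℂ => (m.map fun a => 1 - (starRingEnd ℂ) a * z).prod) =
        fun z => ((m.map fun a => (1 - C ((starRingEnd ℂ) a) * X : ℂ[X])).prod).eval z := by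
      funext z
      rw [eval_prod_rev]
    rw [e]
    exact Polynomial.differentiable _
  have nP : ∀ m : Multiset ℂ, (∀ a ∈ m, ‖a‖ ≤ max r c) → ∀ z : ℂ, max r c < ‖z‖ →
      (m.map fun a => z - a).prod ≠ 0 := by
    intro m hm z hz
    rw [Ne, Multiset.prod_eq_zero_iff, Multiset.mem_map]
    rintro ⟨a, ha, h2⟩
    have h3 := hm a ha
    rw [← sub_eq_zero.1 h2] at h3
    linarith
  have hvne : ∃ z ∈ ball (0 : ℂ) 1, v z ≠ 0 := by
    obtain ⟨z, hz, hz0⟩ := ne_of_sph h.2.1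
    refine ⟨z, hz, fun h2 => hz0 ?_⟩
    rw [hgv z hz, h2, mul_zero]
  obtain ⟨ω, hωd, hω0, hωw⟩ := quot_ext hv hw hvne (by
    intro z hz
    have hvz := (hv.differentiableAt (isOpen_ball.mem_nhds hz)).continuousAt
    have hwz := (hw.differentiableAt (isOpen_ball.mem_nhds hz)).continuousAt
    have key : ∃ φ ψ : ℂ → ℝ, ContinuousAt φ z ∧ ContinuousAt ψ z ∧
        (∀ᶠ y in 𝓝 z, ‖w y‖ ≤ φ y * ‖v y‖) ∧ ∀ᶠ y in 𝓝 z, ‖v y‖ ≤ ψ y * ‖w y‖ := by
      by_cases hzR : ‖z‖ ≤ max r c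
      · refine ⟨fun y => ‖w y‖ / ‖v y‖, fun y => ‖v y‖ / ‖w y‖,
          hwz.norm.div hvz.norm (norm_ne_zero_iff.2 (hv0 z hzR)),
          hvz.norm.div hwz.norm (norm_ne_zero_iff.2 (hw0 z hzR)), ?_, ?_⟩
        · filter_upwards [hvz.eventually_ne (hv0 z hzR)] with y hy
          rw [div_mul_cancel₀ _ (norm_ne_zero_iff.2 hy)]
        · filter_upwards [hwz.eventually_ne (hw0 z hzR)] with y hy
          rw [div_mul_cancel₀ _ (norm_ne_zero_iff.2 hy)]
      · rw [not_le] at hzR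
        rw [mem_ball_zero_iff] at hz
        have hop : ∀ᶠ y in 𝓝 z, max r c < ‖y‖ ∧ ‖y‖ < 1 :=
          ((continuous_norm.tendsto z).eventually (lt_mem_nhds hzR)).and
            ((continuous_norm.tendsto z).eventually (gt_mem_nhds hz))
        refine ⟨fun y => KF c * ‖(s.map fun a => y - a).prod‖ / ‖(t.map fun a => y - a).prod‖,
          fun y => ‖(t.map fun a => y - a).prod‖ / (ε * ‖(s.map fun a => y - a).prod‖),
          ((continuousAt_const.mul (dP s).continuous.continuousAt.norm)).div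
            (dP t).continuous.continuousAt.norm (norm_ne_zero_iff.2 (nP t ht z hzR)),
          (dP t).continuous.continuousAt.norm.div
            ((continuousAt_const.mul (dP s).continuous.continuousAt.norm))
            (mul_ne_zero hε.ne' (norm_ne_zero_iff.2 (nP s hs z hzR))), ?_, ?_⟩
        · filter_upwards [hop] with y hy
          have hyb : y ∈ ball (0 : ℂ) 1 := by
            rw [mem_ball_zero_iff]
            exact hy.2
          have e1 := h.2.2 y ((le_max_right r c).trans hy.1.le) hy.2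
          rw [hfw y hyb, hgv y hyb, norm_mul, norm_mul] at e1
          have hp := norm_pos_iff.2 (nP t ht y hy.1)
          rw [div_mul_eq_mul_div, le_div_iff₀ hp]
          linarith
        · filter_upwards [hop] with y hy
          have hyb : y ∈ ball (0 : ℂ) 1 := by
            rw [mem_ball_zero_iff]
            exact hy.2
          have e1 := hlow y ((le_max_left r c).trans hy.1.le) hy.2
          rw [hfw y hyb, hgv y hyb, norm_mul, norm_mul] at e1
          have hp := mul_pos hε (norm_pos_iff.2 (nP s hs y hy.1))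
          rw [div_mul_eq_mul_div, le_div_iff₀ hp]
          linarith
    obtain ⟨φ, ψ, cφ, cψ, hφ, hψ⟩ := key
    refine ⟨max (|φ z| + 1) (|ψ z| + 1), ?_⟩
    filter_upwards [loc_bound cφ hφ, loc_bound cψ hψ] with y hy1 hy2
    exact ⟨hy1.trans (mul_le_mul_of_nonneg_right (le_max_left _ _) (norm_nonneg _)),
      hy2.trans (mul_le_mul_of_nonneg_right (le_max_right _ _) (norm_nonneg _))⟩)
  refine ⟨s, t, fun z => (t.map fun b => 1 - (starRingEnd ℂ) b * z).prod /
    (s.map fun a => 1 - (starRingEnd ℂ) a * z).prod * ω z, hs1, ht1, ?_, ?_, ?_⟩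
  · intro z hz
    have hz1 : ‖z‖ ≤ 1 := by
      rw [mem_ball_zero_iff] at hz
      exact hz.le
    exact ((((dP' t) z).div ((dP' s) z) (rev_ne hs1 hz1)).mul
      (hωd.differentiableAt (isOpen_ball.mem_nhds hz))).differentiableWithinAt
  · intro z hz
    have hz1 : ‖z‖ ≤ 1 := by
      rw [mem_ball_zero_iff] at hz
      exact hz.le
    exact mul_ne_zero (div_ne_zero (rev_ne ht1 hz1) (rev_ne hs1 hz1)) (hω0 z hz)
  · intro z hz
    have hz1 : ‖z‖ ≤ 1 := by
      rw [mem_ball_zero_iff] at hz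
      exact hz.le
    have hn := rev_ne hs1 hz1
    rw [hfw z hz, hgv z hz, hωw z hz]
    beta_reduce
    generalize (s.map fun a => 1 - (starRingEnd ℂ) a * z).prod = S at hn ⊢
    generalize (t.map fun a => 1 - (starRingEnd ℂ) a * z).prod = T
    generalize (s.map fun a => z - a).prod = P
    generalize (t.map fun a => z - a).prod = Q
    field_simp

end Pool.Agent.Helper23.KU
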