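import Pool.Agent.Helper33.KU.Chi
import Pool.Agent.Helper23.KU.ZDefs

/-!
# KU, stage T, piece A: the factorisation `g = P v`, `f = F v N`
-/

set_option autoImplicit false

namespace Pool.Agent.Helper23.KU

open Filter Topology Metric Set

/-- a radial path to a point from outside -/
theorem out_path {z : ℂ} (hz : z ≠ 0) :
    Tendsto (fun t : ℝ => ((1 + t : ℝ) : ℂ) * z) (𝓝[>] (0 : ℝ)) (𝓝[≠] z) := by
  rw [tendsto_nhdsWithin_iff]
  constructor
  · have h1 : Continuous fun t : ℝ => ((1 + t : ℝ) : ℂ) * z := by fun_prop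
    have h2 := h1.tendsto (0 : ℝ)
    simp only [add_zero, Complex.ofReal_one, one_mul] at h2
    exact h2.mono_left nhdsWithin_le_nhds
  · filter_upwards [self_mem_nhdsWithin] with t ht h3
    rw [mem_singleton_iff] at h3
    have h4 : (((1 + t : ℝ) : ℂ) - 1) * z = 0 := by rw [sub_mul, h3, one_mul, sub_self]
    rcases mul_eq_zero.1 h4 with h5 | h5
    · have h6 : (((1 + t : ℝ) : ℂ) - 1) = ((t : ℝ) : ℂ) := by push_cast; ring
      rw [h6] at h5
      have h7 : t = 0 := by exact_mod_cast h5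
      rw [mem_Ioi] at ht
      linarith
    · exact hz h5

theorem out_norm {z : ℂ} (hz : z ≠ 0) :
    ∀ᶠ t : ℝ in 𝓝[>] (0 : ℝ), ‖z‖ < ‖((1 + t : ℝ) : ℂ) * z‖ := by
  filter_upwards [self_mem_nhdsWithin] with t ht
  rw [mem_Ioi] at ht
  rw [norm_mul, Complex.norm_real, Real.norm_eq_abs, abs_of_pos (by linarith)]
  have := norm_pos_iff.2 hz
  nlinarith

/-- a bound on one side gives a bound near the point -/
theorem bound_of_out {a b : ℂ → ℂ} {z : ℂ} (hz : z ≠ 0) (ha : AnalyticAt ℂ a z)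
    (hb : AnalyticAt ℂ b z) (hb0 : ¬ ∀ᶠ y in 𝓝 z, b y = 0) {C : ℝ}
    (h : ∀ᶠ y in 𝓝 z, ‖z‖ < ‖y‖ → ‖a y‖ ≤ C * ‖b y‖) :
    ∃ K : ℝ, ∀ᶠ y in 𝓝 z, ‖a y‖ ≤ K * ‖b y‖ := by
  by_cases ha0 : ∀ᶠ y in 𝓝 z, a y = 0
  · refine ⟨0, ?_⟩
    filter_upwards [ha0] with y hy
    rw [hy, norm_zero, zero_mul]
  obtain ⟨l, a1, ha1, ha1z, hal⟩ := ha.exists_eventuallyEq_pow_smul_nonzero_iff.2 ha0
  obtain ⟨k, b1, hb1, hb1z, hbk⟩ := hb.exists_eventuallyEq_pow_smul_nonzero_iff.2 hb0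
  have hkl : k ≤ l := by
    by_contra hlt
    rw [not_le] at hlt
    have hp := out_path hz
    have hp' : Tendsto (fun t : ℝ => ((1 + t : ℝ) : ℂ) * z) (𝓝[>] (0 : ℝ)) (𝓝 z) :=
      hp.mono_right nhdsWithin_le_nhds
    have e1 : ∀ᶠ t : ℝ in 𝓝[>] (0 : ℝ), ‖a1 (((1 + t : ℝ) : ℂ) * z)‖ ≤
        C * (‖((1 + t : ℝ) : ℂ) * z - z‖ ^ (k - l) * ‖b1 (((1 + t : ℝ) : ℂ) * z)‖) := by
      filter_upwards [hp'.eventually h, hp'.eventually hal, hp'.eventually hbk, out_norm hz,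
        hp.eventually self_mem_nhdsWithin] with t h1 h2 h3 h4 h5
      have h6 := h1 h4
      generalize ((1 + t : ℝ) : ℂ) * z = y at h2 h3 h5 h6 ⊢
      rw [h2, h3, norm_smul, norm_smul, norm_pow, norm_pow] at h6
      have hyz : 0 < ‖y - z‖ := norm_pos_iff.2 (sub_ne_zero.2 h5)
      have h7 : ‖y - z‖ ^ k = ‖y - z‖ ^ l * ‖y - z‖ ^ (k - l) := by
        rw [← pow_add]
        congr 1
        omega
      rw [h7] at h6
      have h8 : ‖y - z‖ ^ l * ‖a1 y‖ ≤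
          ‖y - z‖ ^ l * (C * (‖y - z‖ ^ (k - l) * ‖b1 y‖)) := by
        calc _ ≤ _ := h6
          _ = _ := by ring
      exact le_of_mul_le_mul_left h8 (pow_pos hyz l)
    have t1 : Tendsto (fun t : ℝ => ‖a1 (((1 + t : ℝ) : ℂ) * z)‖) (𝓝[>] (0 : ℝ)) (𝓝 ‖a1 z‖) :=
      (ha1.continuousAt.norm.tendsto).comp hp'
    have t2 : Tendsto (fun t : ℝ => C * (‖((1 + t : ℝ) : ℂ) * z - z‖ ^ (k - l) *
        ‖b1 (((1 + t : ℝ) : ℂ) * z)‖)) (𝓝[>] (0 : ℝ)) (𝓝 (C * (‖z - z‖ ^ (k - l) * ‖b1 z‖))) := by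
      have c1 : ContinuousAt (fun y : ℂ => C * (‖y - z‖ ^ (k - l) * ‖b1 y‖)) z :=
        continuousAt_const.mul ((((continuousAt_id.sub continuousAt_const).norm).pow _).mul
          hb1.continuousAt.norm)
      exact c1.tendsto.comp hp'
    have h9 := le_of_tendsto_of_tendsto t1 t2 e1
    rw [sub_self, norm_zero, zero_pow (by omega), zero_mul, mul_zero] at h9
    exact ha1z (norm_le_zero_iff.1 h9)
  have hφ : ContinuousAt (fun y : ℂ => ‖y - z‖ ^ (l - k) * ‖a1 y‖ / ‖b1 y‖) z :=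
    ((((continuousAt_id.sub continuousAt_const).norm).pow _).mul ha1.continuousAt.norm).div
      hb1.continuousAt.norm (norm_ne_zero_iff.2 hb1z)
  refine ⟨_, loc_bound hφ ?_⟩
  filter_upwards [hal, hbk, hb1.continuousAt.eventually_ne hb1z] with y h2 h3 h4
  rw [h2, h3, norm_smul, norm_smul, norm_pow, norm_pow]
  have h7 : ‖y - z‖ ^ l = ‖y - z‖ ^ k * ‖y - z‖ ^ (l - k) := by
    rw [← pow_add]
    congr 1
    omega
  rw [h7]
  have h8 := norm_ne_zero_iff.2 h4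
  apply le_of_eq
  field_simp

/-- a function which is locally bounded by a nonzero analytic function is a multiple of it -/
theorem quot_one {v w : ℂ → ℂ} (hv : DifferentiableOn ℂ v (ball 0 1))
    (hw : DifferentiableOn ℂ w (ball 0 1)) (hv0 : ∃ z ∈ ball (0 : ℂ) 1, v z ≠ 0)
    (h : ∀ z ∈ ball (0 : ℂ) 1, ∃ K : ℝ, ∀ᶠ y in 𝓝 z, ‖w y‖ ≤ K * ‖v y‖) :
    ∃ ω : ℂ → ℂ, DifferentiableOn ℂ ω (ball 0 1) ∧
      ∀ z ∈ ball (0 : ℂ) 1, w z = ω z * v z := by
  set q : ℂ → ℂ := fun z => w z / v z with hq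
  set ω : ℂ → ℂ := fun z => limUnder (𝓝[≠] z) q with hω
  have dq : ∀ z ∈ ball (0 : ℂ) 1, v z ≠ 0 → DifferentiableAt ℂ q z := fun z hz hvz =>
    (hw.differentiableAt (isOpen_ball.mem_nhds hz)).div
      (hv.differentiableAt (isOpen_ball.mem_nhds hz)) hvz
  have ω1 : ∀ z ∈ ball (0 : ℂ) 1, v z ≠ 0 → ω z = q z := fun z hz hvz =>
    ((dq z hz hvz).continuousAt.tendsto.mono_left nhdsWithin_le_nhds).limUnder_eq
  have dω : ∀ z ∈ ball (0 : ℂ) 1, DifferentiableAt ℂ ω z := by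
    intro z hz
    by_cases hvz : v z = 0
    · obtain ⟨K, hK⟩ := h z hz
      have hiso := iso_zeros hv hv0 hz
      rw [eventually_nhdsWithin_iff] at hiso
      have hball : ∀ᶠ y in 𝓝 z, y ∈ ball (0 : ℂ) 1 := isOpen_ball.mem_nhds hz
      obtain ⟨ρ, hρ, hsub⟩ := Metric.eventually_nhds_iff_ball.1 (hiso.and (hK.and hball))
      have hd : DifferentiableOn ℂ q (ball z ρ \ {z}) := fun y hy =>
        (dq y (hsub y hy.1).2.2 ((hsub y hy.1).1 hy.2)).differentiableWithinAt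
      have hb : BddAbove (norm ∘ q '' (ball z ρ \ {z})) := by
        refine ⟨K, ?_⟩
        rintro _ ⟨y, hy, rfl⟩
        have hvy := (hsub y hy.1).1 hy.2
        show ‖w y / v y‖ ≤ K
        rw [norm_div, div_le_iff₀ (norm_pos_iff.2 hvy)]
        exact (hsub y hy.1).2.1
      have hd2 := Complex.differentiableOn_update_limUnder_of_bddAbove
        (ball_mem_nhds z hρ) hd hb
      refine ((hd2.differentiableAt (ball_mem_nhds z hρ))).congr_of_eventuallyEq ?_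
      filter_upwards [ball_mem_nhds z hρ] with y hy
      by_cases hyz : y = z
      · subst hyz
        rw [Function.update_self]
      · rw [Function.update_of_ne hyz]
        exact ω1 y (hsub y hy).2.2 ((hsub y hy).1 hyz)
    · refine (dq z hz hvz).congr_of_eventuallyEq ?_
      have hvc := (hv.differentiableAt (isOpen_ball.mem_nhds hz)).continuousAt.eventually_ne hvz
      filter_upwards [hvc, isOpen_ball.mem_nhds hz] with y hy hyb
      exact ω1 y hyb hy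
  refine ⟨ω, fun z hz => (dω z hz).differentiableWithinAt, fun z hz => ?_⟩
  by_cases hvz : v z = 0
  · obtain ⟨K, hK⟩ := h z hz
    have h2 := hK.self_of_nhds
    rw [hvz, norm_zero, mul_zero] at h2
    rw [hvz, mul_zero]
    exact norm_le_zero_iff.1 h2
  · rw [ω1 z hz hvz, hq]
    simp only
    rw [div_mul_cancel₀ _ hvz]

theorem mm_diff33 (m : Multiset ℂ) : Differentiable ℂ (mm m) := by
  have e : mm m = fun z => ((m.map fun a => (Polynomial.X - Polynomial.C a :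
      Polynomial ℂ)).prod).eval z := by
    funext z
    rw [mm, eval_prod_sub]
  rw [e]
  exact Polynomial.differentiable _

theorem mm_ne33 {m : Multiset ℂ} {z : ℂ} (h : z ∉ m) : mm m z ≠ 0 := by
  rw [mm, Ne, Multiset.prod_eq_zero_iff, Multiset.mem_map]
  rintro ⟨a, ha, h2⟩
  rw [sub_eq_zero] at h2
  exact h (h2 ▸ ha)

/-- piece A: `g = P v`, `f = F v N` -/
theorem fac_N {c F : ℝ} (hc : 0 < c) (hc1 : c < 1) (hF : 0 < F) {f g : ℂ → ℂ}
    (hf : DifferentiableOn ℂ f (ball 0 1)) (hg : DifferentiableOn ℂ g (ball 0 1))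
    (hg0 : ∃ z ∈ ball (0 : ℂ) 1, g z ≠ 0)
    (hfg : ∀ z : ℂ, c < ‖z‖ → ‖z‖ < 1 → ‖f z‖ ≤ F * ‖g z‖) :
    ∃ (s : Multiset ℂ) (v N : ℂ → ℂ), (∀ a ∈ s, ‖a‖ < c) ∧
      DifferentiableOn ℂ v (ball 0 1) ∧ DifferentiableOn ℂ N (ball 0 1) ∧
      (∀ z ∈ ball (0 : ℂ) 1, g z = mm s z * v z) ∧
      (∀ z ∈ ball (0 : ℂ) 1, f z = F * (v z * N z)) ∧
      (∀ z : ℂ, ‖z‖ < c → v z ≠ 0) ∧
      ∀ z : ℂ, c ≤ ‖z‖ → ‖z‖ < 1 → ‖N z‖ ≤ ‖mm s z‖ := by
  classical
  obtain ⟨s', v', hs', hv', hv0', hgv'⟩ := fin_zeros hg hg0 hc1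
  set s : Multiset ℂ := s'.filter fun a => ‖a‖ < c with hs
  set s2 : Multiset ℂ := s'.filter fun a => ¬ ‖a‖ < c with hs2
  have hss : ∀ z, mm s' z = mm s z * mm s2 z := by
    intro z
    rw [mm, mm, mm, ← Multiset.prod_add, ← Multiset.map_add, hs, hs2, Multiset.filter_add_not]
  set v : ℂ → ℂ := fun z => mm s2 z * v' z with hv
  have hvd : DifferentiableOn ℂ v (ball 0 1) := (mm_diff33 s2).differentiableOn.mul hv'
  have hgv : ∀ z ∈ ball (0 : ℂ) 1, g z = mm s z * v z := by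
    intro z hz
    have h2 := hgv' z hz
    change g z = mm s' z * v' z at h2
    rw [h2, hss z, hv]
    ring
  have hs1 : ∀ a ∈ s, ‖a‖ < c := fun a ha => (Multiset.mem_filter.1 ha).2
  have hvc : ∀ z : ℂ, ‖z‖ < c → v z ≠ 0 := by
    intro z hz
    refine mul_ne_zero (mm_ne33 fun h2 => (Multiset.mem_filter.1 h2).2 hz) (hv0' z hz.le)
  have h0b : (0 : ℂ) ∈ ball (0 : ℂ) 1 := mem_ball_self one_pos
  have hvne : ∃ z ∈ ball (0 : ℂ) 1, v z ≠ 0 := ⟨0, h0b, hvc 0 (by rwa [norm_zero])⟩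
  have hnot : ∀ z ∈ ball (0 : ℂ) 1, ¬ ∀ᶠ y in 𝓝 z, v y = 0 := by
    intro z hz h2
    have h3 := iso_zeros hvd hvne hz
    have h4 : ∀ᶠ y in 𝓝[≠] z, False := by
      filter_upwards [h3, h2.filter_mono nhdsWithin_le_nhds] with y h5 h6
      exact h5 h6
    exact (NormedField.nhdsNE_neBot z).ne (by simpa using h4)
  have hout : ∀ z : ℂ, c < ‖z‖ → ‖z‖ < 1 → ‖f z‖ ≤ (F * ‖mm s z‖) * ‖v z‖ := by
    intro z h2 h3
    have h4 := hfg z h2 h3
    rwa [hgv z (mem_ball_zero_iff.2 h3), norm_mul, ← mul_assoc] at h4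
  obtain ⟨ω, hωd, hω⟩ := quot_one hvd hf hvne (by
    intro z hz
    have hvz := (hvd.differentiableAt (isOpen_ball.mem_nhds hz)).continuousAt
    have hfz := (hf.differentiableAt (isOpen_ball.mem_nhds hz)).continuousAt
    by_cases hzc : ‖z‖ < c
    · have hφ : ContinuousAt (fun y => ‖f y‖ / ‖v y‖) z :=
        hfz.norm.div hvz.norm (norm_ne_zero_iff.2 (hvc z hzc))
      refine ⟨_, loc_bound hφ ?_⟩
      filter_upwards [hvz.eventually_ne (hvc z hzc)] with y hy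
      rw [div_mul_cancel₀ _ (norm_ne_zero_iff.2 hy)]
    · rw [not_lt] at hzc
      have hz0 : z ≠ 0 := by
        rw [← norm_pos_iff]
        linarith
      refine bound_of_out (C := |F * ‖mm s z‖| + 1) hz0
        ((hf.analyticOnNhd isOpen_ball) z hz) ((hvd.analyticOnNhd isOpen_ball) z hz)
        (hnot z hz) ?_
      have hφ : ContinuousAt (fun y => F * ‖mm s y‖) z :=
        continuousAt_const.mul (mm_diff33 s).continuous.continuousAt.norm
      have h1 : ∀ᶠ y in 𝓝 z, F * ‖mm s y‖ < |F * ‖mm s z‖| + 1 :=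
        hφ.tendsto.eventually (gt_mem_nhds (lt_of_le_of_lt (le_abs_self _) (lt_add_one _)))
      filter_upwards [h1, isOpen_ball.mem_nhds hz] with y h2 h3 h4
      rw [mem_ball_zero_iff] at h3
      exact (hout y (lt_of_le_of_lt hzc h4) h3).trans
        (mul_le_mul_of_nonneg_right h2.le (norm_nonneg _)))
  have hF' : (F : ℂ) ≠ 0 := by exact_mod_cast hF.ne'
  have hNd : DifferentiableOn ℂ (fun z => ω z / (F : ℂ)) (ball 0 1) := hωd.div_const _
  refine ⟨s, v, fun z => ω z / F, hs1, hvd, hNd, hgv, ?_, hvc, ?_⟩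
  · intro z hz
    rw [hω z hz]
    field_simp
  · intro z hz hz1
    have hzb : z ∈ ball (0 : ℂ) 1 := mem_ball_zero_iff.2 hz1
    have hz0 : z ≠ 0 := by
      rw [← norm_pos_iff]
      linarith
    have hp := out_path hz0
    have hp' : Tendsto (fun t : ℝ => ((1 + t : ℝ) : ℂ) * z) (𝓝[>] (0 : ℝ)) (𝓝 z) :=
      hp.mono_right nhdsWithin_le_nhds
    have e1 : ∀ᶠ t : ℝ in 𝓝[>] (0 : ℝ), ‖ω (((1 + t : ℝ) : ℂ) * z) / (F : ℂ)‖ ≤
        ‖mm s (((1 + t : ℝ) : ℂ) * z)‖ := by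
      filter_upwards [hp.eventually (iso_zeros hvd hvne hzb), out_norm hz0,
        hp'.eventually (isOpen_ball.mem_nhds hzb)] with t h2 h3 h4
      generalize ((1 + t : ℝ) : ℂ) * z = y at h2 h3 h4 ⊢
      have h5 := hout y (lt_of_le_of_lt hz h3) (mem_ball_zero_iff.1 h4)
      rw [hω y h4, norm_mul] at h5
      have h6 := le_of_mul_le_mul_right h5 (norm_pos_iff.2 h2)
      rw [norm_div, Complex.norm_real, Real.norm_eq_abs, abs_of_pos hF, div_le_iff₀ hF]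
      linarith
    have t1 : Tendsto (fun t : ℝ => ‖ω (((1 + t : ℝ) : ℂ) * z) / (F : ℂ)‖) (𝓝[>] (0 : ℝ))
        (𝓝 ‖ω z / (F : ℂ)‖) :=
      ((hNd.differentiableAt (isOpen_ball.mem_nhds hzb)).continuousAt.norm.tendsto).comp hp'
    have t2 : Tendsto (fun t : ℝ => ‖mm s (((1 + t : ℝ) : ℂ) * z)‖) (𝓝[>] (0 : ℝ))
        (𝓝 ‖mm s z‖) :=
      ((mm_diff33 s).continuous.norm.tendsto z).comp hp'
    exact le_of_tendsto_of_tendsto t1 t2 e1

end Pool.Agent.Helper23.KU
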