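import Pool.Agent.Helper23.KU.Bdry
import Pool.Agent.Helper23.KU.Alg
import Pool.Agent.Helper54.KU.Zeros
import Pool.Agent.Helper98.KU.Blaschke

/-!
# KU, piece P4: a continuous quotient is rational
-/

set_option autoImplicit false

namespace Pool.Agent.Helper23.KU

open Polynomial Filter Topology Metric MeasureTheory Set
open Pool.Agent.Helper23.KB (Sph Dom KF Ext sq area_series ms_series kf_le kf_dn kf_nonneg int_cont)

/-- a function of the sphere of the Bergman space does not vanish identically -/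
theorem ne_of_sph {g : ℂ → ℂ} (h : Sph g) : ∃ z ∈ ball (0 : ℂ) 1, g z ≠ 0 := by
  by_contra hcon
  push Not at hcon
  have h2 : ∫ z in ball (0 : ℂ) 1, ‖g z‖ ^ 2 = 0 := by
    rw [setIntegral_congr_fun (g := fun _ => (0 : ℝ)) measurableSet_ball]
    · simp
    · intro z hz
      simp only
      rw [hcon z hz, norm_zero]
      ring
  have h3 := h.2.2
  rw [h2, mul_zero] at h3
  exact zero_ne_one h3

/-- isolated zeros -/
theorem iso_zeros {g : ℂ → ℂ} (hg : DifferentiableOn ℂ g (ball 0 1))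
    (hg0 : ∃ z ∈ ball (0 : ℂ) 1, g z ≠ 0) {w : ℂ} (hw : w ∈ ball (0 : ℂ) 1) :
    ∀ᶠ x in 𝓝[≠] w, g x ≠ 0 := by
  have han : AnalyticOnNhd ℂ g (ball 0 1) := hg.analyticOnNhd isOpen_ball
  rcases (han w hw).eventually_eq_zero_or_eventually_ne_zero with h2 | h2
  · exfalso
    obtain ⟨x, hx, hx0⟩ := hg0
    exact hx0 (han.eqOn_zero_of_preconnected_of_eventuallyEq_zero
      (convex_ball (0 : ℂ) 1).isPreconnected hw h2 hx)
  · exact h2

/-- points of an open annulus near a point of the circle -/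
theorem near_circle {ζ : ℂ} (hζ : ‖ζ‖ = 1) {ρ ε : ℝ} (hρ : ρ < 1) (hε : 0 < ε) :
    ∃ w : ℂ, ρ < ‖w‖ ∧ ‖w‖ < 1 ∧ ‖w - ζ‖ < ε := by
  set t : ℝ := min ((1 - ρ) / 2) (min (ε / 2) (1 / 2)) with ht
  have t0 : 0 < t := by
    refine lt_min (by linarith) (lt_min (by linarith) (by norm_num))
  have t1 : t ≤ (1 - ρ) / 2 := min_le_left _ _
  have t2 : t ≤ ε / 2 := (min_le_right _ _).trans (min_le_left _ _)
  have t3 : t ≤ 1 / 2 := (min_le_right _ _).trans (min_le_right _ _)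
  refine ⟨((1 - t : ℝ) : ℂ) * ζ, ?_, ?_, ?_⟩
  · rw [norm_mul, hζ, mul_one, Complex.norm_real, Real.norm_of_nonneg (by linarith)]
    linarith
  · rw [norm_mul, hζ, mul_one, Complex.norm_real, Real.norm_of_nonneg (by linarith)]
    linarith
  · have h : ((1 - t : ℝ) : ℂ) * ζ - ζ = ((-t : ℝ) : ℂ) * ζ := by
      push_cast
      ring
    rw [h, norm_mul, hζ, mul_one, Complex.norm_real, Real.norm_eq_abs, abs_neg, abs_of_pos t0]
    linarith

/-- the modulus of the quotient on the circle -/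
theorem mod_circle {c : ℝ} (h0 : 0 < c) (h1 : c < 1) {f g : ℂ → ℂ} (h : Ext c f g)
    {r : ℝ} (hr : r < 1) {Ψ : ℂ → ℂ} (hΨ : ContinuousOn Ψ {z | r ≤ ‖z‖ ∧ ‖z‖ ≤ 1})
    (hfg : ∀ z : ℂ, r ≤ ‖z‖ → ‖z‖ < 1 → f z = Ψ z * g z) {ζ : ℂ} (hζ : ‖ζ‖ = 1) :
    ‖Ψ ζ‖ = KF c := by
  have hF : 0 < KF c := kf_pos' h0 h1
  have hζA : ζ ∈ {z : ℂ | r ≤ ‖z‖ ∧ ‖z‖ ≤ 1} := ⟨by rw [hζ]; exact hr.le, hζ.le⟩
  have hcw := (hΨ ζ hζA).norm
  rw [ContinuousWithinAt, Metric.tendsto_nhdsWithin_nhds] at hcw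
  rcases lt_trichotomy ‖Ψ ζ‖ (KF c) with hlt | heq | hgt
  · exfalso
    -- the gap
    have hγ : 0 < (KF c - ‖Ψ ζ‖) / (2 * KF c) := div_pos (by linarith) (by linarith)
    obtain ⟨δ, hδ, hδ2⟩ := hcw ((KF c - ‖Ψ ζ‖) / 2) (by linarith)
    refine bdry h0 h1 h hζ hγ (r := min δ (1 - r)) (lt_min hδ (by linarith)) fun z hz hz1 hz2 => ?_
    have hzr : r ≤ ‖z‖ := by
      have h3 := hz2.trans_le (min_le_right _ _)
      have h4 := norm_sub_norm_le ζ (ζ - z)
      rw [sub_sub_cancel, hζ, norm_sub_rev ζ z] at h4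
      linarith
    have h3 := hδ2 (x := z) ⟨hzr, hz1.le⟩ (by
      rw [dist_eq_norm]
      exact hz2.trans_le (min_le_left _ _))
    rw [Real.dist_eq] at h3
    have h4 := (abs_lt.1 h3).2
    rw [hfg z hzr hz1, norm_mul]
    refine mul_le_mul_of_nonneg_right ?_ (norm_nonneg _)
    have h5 : (1 - (KF c - ‖Ψ ζ‖) / (2 * KF c)) * KF c = KF c - (KF c - ‖Ψ ζ‖) / 2 := by
      field_simp
    rw [h5]
    linarith
  · exact heq
  · exfalso
    obtain ⟨δ, hδ, hδ2⟩ := hcw (‖Ψ ζ‖ - KF c) (by linarith)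
    obtain ⟨w, hw1, hw2, hw3⟩ := near_circle hζ (ρ := max r c) (max_lt hr h1) hδ
    have hwb : w ∈ ball (0 : ℂ) 1 := by rwa [mem_ball_zero_iff]
    have hiso := iso_zeros h.2.1.1 (ne_of_sph h.2.1) hwb
    have hopen : ∀ᶠ x in 𝓝[≠] w, max r c < ‖x‖ ∧ ‖x‖ < 1 ∧ ‖x - ζ‖ < δ := by
      refine eventually_nhdsWithin_of_eventually_nhds ?_
      have c1 : Continuous fun x : ℂ => ‖x - ζ‖ := by fun_prop
      exact ((continuous_norm.tendsto w).eventually (lt_mem_nhds hw1)).and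
        (((continuous_norm.tendsto w).eventually (gt_mem_nhds hw2)).and
          ((c1.tendsto w).eventually (gt_mem_nhds hw3)))
    obtain ⟨x, hx, hx1, hx2, hx3⟩ := (hiso.and hopen).exists
    have hxr : r ≤ ‖x‖ := (le_max_left r c).trans hx1.le
    have hxc : c ≤ ‖x‖ := (le_max_right r c).trans hx1.le
    have h3 := hδ2 (x := x) ⟨hxr, hx2.le⟩ (by rwa [dist_eq_norm])
    rw [Real.dist_eq] at h3
    have h4 := (abs_lt.1 h3).1
    have h5 := h.2.2 x hxc hx2
    rw [hfg x hxr hx2, norm_mul] at h5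
    have h6 := le_of_mul_le_mul_right h5 (norm_pos_iff.2 hx)
    linarith

/-- the continuous quotient is analytic in the open annulus -/
theorem ana_annulus {f g : ℂ → ℂ} (hf : DifferentiableOn ℂ f (ball 0 1))
    (hg : DifferentiableOn ℂ g (ball 0 1)) (hg0 : ∃ z ∈ ball (0 : ℂ) 1, g z ≠ 0)
    {r : ℝ} {Ψ : ℂ → ℂ} (hΨ : ContinuousOn Ψ {z | r ≤ ‖z‖ ∧ ‖z‖ ≤ 1})
    (hfg : ∀ z : ℂ, r ≤ ‖z‖ → ‖z‖ < 1 → f z = Ψ z * g z) {w : ℂ} (hw : r < ‖w‖) (hw1 : ‖w‖ < 1) :
    DifferentiableAt ℂ Ψ w := by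
  have hwb : w ∈ ball (0 : ℂ) 1 := by rwa [mem_ball_zero_iff]
  have hopen : ∀ᶠ x in 𝓝 w, r < ‖x‖ ∧ ‖x‖ < 1 :=
    ((continuous_norm.tendsto w).eventually (lt_mem_nhds hw)).and
      ((continuous_norm.tendsto w).eventually (gt_mem_nhds hw1))
  have hev : ∀ᶠ x in 𝓝[≠] w, DifferentiableAt ℂ Ψ x := by
    filter_upwards [iso_zeros hg hg0 hwb, eventually_nhdsWithin_of_eventually_nhds hopen] with x hx
      hx2
    have hxb : x ∈ ball (0 : ℂ) 1 := by
      rw [mem_ball_zero_iff]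
      exact hx2.2
    have hfx := hf.differentiableAt (isOpen_ball.mem_nhds hxb)
    have hgx := hg.differentiableAt (isOpen_ball.mem_nhds hxb)
    have hxo : ∀ᶠ y in 𝓝 x, r < ‖y‖ ∧ ‖y‖ < 1 :=
      ((continuous_norm.tendsto x).eventually (lt_mem_nhds hx2.1)).and
        ((continuous_norm.tendsto x).eventually (gt_mem_nhds hx2.2))
    have hgy : ∀ᶠ y in 𝓝 x, g y ≠ 0 := hgx.continuousAt.eventually_ne hx
    refine (hfx.div hgx hx).congr_of_eventuallyEq ?_
    filter_upwards [hxo, hgy] with y hy hy2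
    show Ψ y = f y / g y
    rw [hfg y hy.1.le hy.2, mul_div_cancel_right₀ _ hy2]
  have hcont : ContinuousAt Ψ w := by
    refine hΨ.continuousAt ?_
    filter_upwards [hopen] with x hx
    exact ⟨hx.1.le, hx.2.le⟩
  exact (Complex.analyticAt_of_differentiable_on_punctured_nhds_of_continuousAt hev
    hcont).differentiableAt

/-- `|∏ (z - a)| = |∏ (1 - conj a z)|` on the circle -/
theorem prod_circle (s : Multiset ℂ) {z : ℂ} (hz : ‖z‖ = 1) :
    ‖(s.map fun a => z - a).prod‖ = ‖(s.map fun a => 1 - (starRingEnd ℂ) a * z).prod‖ := by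
  induction s using Multiset.induction_on with
  | empty => rfl
  | cons a s ih =>
    rw [Multiset.map_cons, Multiset.map_cons, Multiset.prod_cons, Multiset.prod_cons, norm_mul,
      norm_mul, ih]
    congr 1
    have h1 : (1 : ℂ) = (starRingEnd ℂ) z * z := by
      rw [mul_comm, Complex.mul_conj, Complex.normSq_eq_norm_sq, hz]
      simp
    have h2 : 1 - (starRingEnd ℂ) a * z = (starRingEnd ℂ) (z - a) * z := by
      rw [map_sub]
      linear_combination h1
    rw [h2, norm_mul, hz, mul_one, RCLike.norm_conj]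

theorem eval_prod_sub (s : Multiset ℂ) (z : ℂ) :
    ((s.map fun a => (X - C a : ℂ[X])).prod).eval z = (s.map fun a => z - a).prod := by
  induction s using Multiset.induction_on with
  | empty => simp
  | cons a s ih =>
    rw [Multiset.map_cons, Multiset.map_cons, Multiset.prod_cons, Multiset.prod_cons, eval_mul, ih,
      eval_sub, eval_X, eval_C]

theorem eval_prod_rev (s : Multiset ℂ) (z : ℂ) :
    ((s.map fun a => (1 - C ((starRingEnd ℂ) a) * X : ℂ[X])).prod).eval z =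
      (s.map fun a => 1 - (starRingEnd ℂ) a * z).prod := by
  induction s using Multiset.induction_on with
  | empty => simp
  | cons a s ih =>
    rw [Multiset.map_cons, Multiset.map_cons, Multiset.prod_cons, Multiset.prod_cons, eval_mul, ih,
      eval_sub, eval_one, eval_mul, eval_C, eval_X]

theorem rev_ne {s : Multiset ℂ} (hs : ∀ a ∈ s, ‖a‖ < 1) {z : ℂ} (hz : ‖z‖ ≤ 1) :
    (s.map fun a => 1 - (starRingEnd ℂ) a * z).prod ≠ 0 := by
  rw [Ne, Multiset.prod_eq_zero_iff, Multiset.mem_map]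
  rintro ⟨a, ha, h⟩
  have h1 : (starRingEnd ℂ) a * z = 1 := (sub_eq_zero.1 h).symm
  have h2 := congrArg norm h1
  rw [norm_mul, RCLike.norm_conj, norm_one] at h2
  have h3 : ‖a‖ * ‖z‖ ≤ ‖a‖ * 1 := mul_le_mul_of_nonneg_left hz (norm_nonneg a)
  have := hs a ha
  linarith

theorem rat_of_cont {c : ℝ} (h0 : 0 < c) (h1 : c < 1) {f g : ℂ → ℂ} (h : Ext c f g)
    {r : ℝ} (hr : r < 1) {Ψ : ℂ → ℂ} (hΨ : ContinuousOn Ψ {z | r ≤ ‖z‖ ∧ ‖z‖ ≤ 1})
    (hfg : ∀ z : ℂ, r ≤ ‖z‖ → ‖z‖ < 1 → f z = Ψ z * g z) :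
    ∃ p q : ℂ[X], q ≠ 0 ∧ ∀ z ∈ ball (0 : ℂ) 1, q.eval z * f z = p.eval z * g z := by
  have hF : 0 < KF c := kf_pos' h0 h1
  have hf : DifferentiableOn ℂ f (ball 0 1) := h.1.1
  have hg : DifferentiableOn ℂ g (ball 0 1) := h.2.1.1
  have hg0 := ne_of_sph h.2.1
  -- radii
  set R : ℝ := (r + 1) / 2 with hR
  have hrR : r < R := by rw [hR]; linarith
  have hR1 : R < 1 := by rw [hR]; linarith
  obtain ⟨s, v, hs, hv, hv0, hgv⟩ := fin_zeros hg hg0 hR1
  have hs1 : ∀ a ∈ s, ‖a‖ < 1 := fun a ha => (hs a ha).trans_lt hR1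
  set δ : ℂ → ℂ := fun z => (s.map fun a => z - a).prod with hδ
  set δ' : ℂ → ℂ := fun z => (s.map fun a => 1 - (starRingEnd ℂ) a * z).prod with hδ'
  have hδp : δ = fun z => ((s.map fun a => (X - C a : ℂ[X])).prod).eval z := by
    funext z
    rw [eval_prod_sub]
  have hδp' : δ' = fun z => ((s.map fun a => (1 - C ((starRingEnd ℂ) a) * X : ℂ[X])).prod).eval z := by
    funext z
    rw [eval_prod_rev]
  have dδ : Differentiable ℂ δ := by
    rw [hδp]
    exact Polynomial.differentiable _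
  have dδ' : Differentiable ℂ δ' := by
    rw [hδp']
    exact Polynomial.differentiable _
  have hne : ∀ z : ℂ, ‖z‖ ≤ 1 → δ' z ≠ 0 := fun z hz => rev_ne hs1 hz
  classical
  set χ : ℂ → ℂ := fun z => if ‖z‖ < R then f z / (v z * δ' z) else δ z * Ψ z / δ' z with hχ
  have χ1 : ∀ z : ℂ, ‖z‖ < R → χ z = f z / (v z * δ' z) := fun z hz => by
    simp only [hχ]
    rw [if_pos hz]
  have χ2 : ∀ z : ℂ, r ≤ ‖z‖ → ‖z‖ ≤ 1 → χ z = δ z * Ψ z / δ' z := by
    intro z hz hz1
    by_cases hzR : ‖z‖ < R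
    · rw [χ1 z hzR]
      have hz2 : ‖z‖ < 1 := hzR.trans hR1
      have e1 := hfg z hz hz2
      have e2 := hgv z (by rwa [mem_ball_zero_iff])
      have hvz := hv0 z hzR.le
      have hdz := hne z hz1
      rw [e1, e2, div_eq_div_iff (mul_ne_zero hvz hdz) hdz]
      ring
    · simp only [hχ]
      rw [if_neg hzR]
  have hχd : DifferentiableOn ℂ χ (ball 0 1) := by
    intro z hz
    rw [mem_ball_zero_iff] at hz
    refine DifferentiableAt.differentiableWithinAt ?_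
    by_cases hzR : ‖z‖ < R
    · have hzb : z ∈ ball (0 : ℂ) 1 := by rwa [mem_ball_zero_iff]
      have hfz := hf.differentiableAt (isOpen_ball.mem_nhds hzb)
      have hvz := hv.differentiableAt (isOpen_ball.mem_nhds hzb)
      refine (hfz.div (hvz.mul (dδ' z)) (mul_ne_zero (hv0 z hzR.le)
        (hne z hz.le))).congr_of_eventuallyEq ?_
      filter_upwards [(continuous_norm.tendsto z).eventually (gt_mem_nhds hzR)] with y hy
      exact χ1 y hy
    · have hzr : r < ‖z‖ := hrR.trans_le (not_lt.1 hzR)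
      have hΨz := ana_annulus hf hg hg0 hΨ hfg hzr hz
      refine (((dδ z).mul hΨz).div (dδ' z) (hne z hz.le)).congr_of_eventuallyEq ?_
      filter_upwards [(continuous_norm.tendsto z).eventually (lt_mem_nhds hzr),
        (continuous_norm.tendsto z).eventually (gt_mem_nhds hz)] with y hy hy1
      exact χ2 y hy.le hy1.le
  have hχc : ContinuousOn χ (closedBall 0 1) := by
    intro z hz
    rw [mem_closedBall_zero_iff] at hz
    rcases hz.lt_or_eq with hz1 | hz1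
    · have hzb : z ∈ ball (0 : ℂ) 1 := by rwa [mem_ball_zero_iff]
      exact ((hχd.differentiableAt (isOpen_ball.mem_nhds hzb)).continuousAt).continuousWithinAt
    · have hzr : r < ‖z‖ := by rw [hz1]; exact hr
      have hzA : z ∈ {w : ℂ | r ≤ ‖w‖ ∧ ‖w‖ ≤ 1} := ⟨hzr.le, hz⟩
      have hk : ContinuousWithinAt (fun w => δ w * Ψ w / δ' w) {w : ℂ | r ≤ ‖w‖ ∧ ‖w‖ ≤ 1} z :=
        ((dδ.continuous.continuousWithinAt).mul (hΨ z hzA)).div
          dδ'.continuous.continuousWithinAt (hne z hz)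
      have hk2 : ContinuousWithinAt χ {w : ℂ | r ≤ ‖w‖ ∧ ‖w‖ ≤ 1} z :=
        hk.congr (fun w hw => χ2 w hw.1 hw.2) (χ2 z hzr.le hz)
      have hk3 : ContinuousWithinAt χ (closedBall 0 1 ∩ {w : ℂ | r < ‖w‖}) z := by
        refine hk2.mono ?_
        rintro w ⟨hw1, hw2⟩
        rw [mem_closedBall_zero_iff] at hw1
        exact ⟨le_of_lt hw2, hw1⟩
      refine (continuousWithinAt_inter ?_).1 hk3
      exact (continuous_norm.tendsto z).eventually (lt_mem_nhds hzr)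
  have hχm : ∀ z : ℂ, ‖z‖ = 1 → ‖χ z‖ = KF c := by
    intro z hz
    rw [χ2 z (by rw [hz]; exact hr.le) hz.le, norm_div, norm_mul,
      mod_circle h0 h1 h hr hΨ hfg hz]
    have e1 : ‖δ z‖ = ‖δ' z‖ := prod_circle s hz
    rw [e1]
    have e2 : ‖δ' z‖ ≠ 0 := norm_ne_zero_iff.2 (hne z hz.le)
    field_simp
  obtain ⟨s', κ, hs', hκ⟩ := blaschke hF hχc hχd hχm
  refine ⟨C κ * ((s'.map fun b => (X - C b : ℂ[X])).prod *
    (s.map fun a => (1 - C ((starRingEnd ℂ) a) * X : ℂ[X])).prod),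
    (s.map fun a => (X - C a : ℂ[X])).prod *
    (s'.map fun b => (1 - C ((starRingEnd ℂ) b) * X : ℂ[X])).prod, ?_, fun z hz => ?_⟩
  · refine mul_ne_zero ?_ ?_
    · rw [Ne, Multiset.prod_eq_zero_iff, Multiset.mem_map]
      rintro ⟨a, _, h2⟩
      exact X_sub_C_ne_zero a h2
    · rw [Ne, Multiset.prod_eq_zero_iff, Multiset.mem_map]
      rintro ⟨a, _, h2⟩
      have h3 := congrArg (Polynomial.eval 0) h2
      rw [eval_sub, eval_one, eval_mul, eval_X, mul_zero, sub_zero, eval_zero] at h3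
      exact one_ne_zero h3
  · rw [eval_mul, eval_mul, eval_mul, eval_C, eval_prod_sub, eval_prod_sub, eval_prod_rev,
      eval_prod_rev]
    have e1 := hκ z hz
    have e2 : δ z * f z = χ z * δ' z * g z := by
      rw [mem_ball_zero_iff] at hz
      have hdz := hne z hz.le
      by_cases hzR : ‖z‖ < R
      · rw [χ1 z hzR]
        have e3 := hgv z (by rwa [mem_ball_zero_iff])
        have hvz := hv0 z hzR.le
        have e4 : g z = δ z * v z := e3
        rw [e4]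
        field_simp
      · have hzr : r ≤ ‖z‖ := hrR.le.trans (not_lt.1 hzR)
        rw [χ2 z hzr hz.le, hfg z hzr hz]
        field_simp
    show δ z * _ * f z = κ * (_ * δ' z) * g z
    linear_combination (s'.map fun b => 1 - (starRingEnd ℂ) b * z).prod * e2 +
      δ' z * g z * e1

end Pool.Agent.Helper23.KU
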