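import Pool.Agent.Helper33.KU.FacN
import Pool.Agent.Helper54.KU.Near

/-!
# KU, project KR, piece A
-/

set_option autoImplicit false

namespace Pool.Agent.Helper23.KU

open Filter Topology Metric MeasureTheory Set
open Pool.Agent.Helper23.KB (Sph Dom KF Ext sq area_series ms_series kf_le kf_dn kf_nonneg int_cont)

/-- in the disc the polynomial is at most its reversal -/
theorem mm_le_mr {s : Multiset ℂ} (hs : ∀ a ∈ s, ‖a‖ < 1) {z : ℂ} (hz : ‖z‖ ≤ 1) :
    ‖mm s z‖ ≤ ‖mr s z‖ := by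
  induction s using Multiset.induction_on with
  | empty => simp [mm, mr]
  | cons a s ih =>
    have h1 := ih fun b hb => hs b (Multiset.mem_cons_of_mem hb)
    have ha : ‖a‖ < 1 := hs a (Multiset.mem_cons_self a s)
    have h2 : ‖z - a‖ ≤ ‖1 - (starRingEnd ℂ) a * z‖ := by
      have h3 : ‖z - a‖ ^ 2 ≤ ‖1 - (starRingEnd ℂ) a * z‖ ^ 2 := by
        have e1 : ‖1 - (starRingEnd ℂ) a * z‖ ^ 2 - ‖z - a‖ ^ 2 =
            (1 - ‖z‖ ^ 2) * (1 - ‖a‖ ^ 2) := by
          rw [← Complex.normSq_eq_norm_sq, ← Complex.normSq_eq_norm_sq,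
            ← Complex.normSq_eq_norm_sq, ← Complex.normSq_eq_norm_sq]
          simp only [Complex.normSq_apply, Complex.sub_re, Complex.sub_im, Complex.mul_re,
            Complex.mul_im, Complex.conj_re, Complex.conj_im, Complex.one_re, Complex.one_im]
          ring
        have e2 : 0 ≤ (1 - ‖z‖ ^ 2) * (1 - ‖a‖ ^ 2) := by
          have := norm_nonneg z
          have := norm_nonneg a
          exact mul_nonneg (by nlinarith) (by nlinarith)
        linarith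
      exact le_of_sq_le_sq h3 (norm_nonneg _)
    simp only [mm, mr, Multiset.map_cons, Multiset.prod_cons] at h1 ⊢
    rw [norm_mul, norm_mul]
    exact mul_le_mul h2 h1 (norm_nonneg _) (norm_nonneg _)
where
  le_of_sq_le_sq {a b : ℝ} (h : a ^ 2 ≤ b ^ 2) (hb : 0 ≤ b) : a ≤ b :=
    abs_le_of_sq_le_sq' h hb |>.2

theorem mr_ne33 {s : Multiset ℂ} (hs : ∀ a ∈ s, ‖a‖ < 1) {z : ℂ} (hz : ‖z‖ ≤ 1) : mr s z ≠ 0 :=
  rev_ne hs hz

theorem mr_diff33 (m : Multiset ℂ) : Differentiable ℂ (mr m) := by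
  have e : mr m = fun z => ((m.map fun a => (1 - Polynomial.C ((starRingEnd ℂ) a) *
      Polynomial.X : Polynomial ℂ)).prod).eval z := by
    funext z
    rw [mr, eval_prod_rev]
  rw [e]
  exact Polynomial.differentiable _

/-- a factor bounded below near the circle can be divided out -/
theorem int_div {P v g : ℂ → ℂ} {r δ : ℝ} (hr : r < 1) (hδ : 0 < δ)
    (hv : ContinuousOn v (ball 0 1)) (hgv : ∀ z ∈ ball (0 : ℂ) 1, g z = P z * v z)
    (hP : ∀ z : ℂ, r ≤ ‖z‖ → ‖z‖ < 1 → δ ≤ ‖P z‖)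
    (hg : IntegrableOn (fun z => ‖g z‖ ^ 2) (ball 0 1)) :
    IntegrableOn (fun z => ‖v z‖ ^ 2) (ball 0 1) := by
  have hK : IsCompact (closedBall (0 : ℂ) r) := isCompact_closedBall 0 r
  have hsub : closedBall (0 : ℂ) r ⊆ ball (0 : ℂ) 1 := closedBall_subset_ball hr
  obtain ⟨M, hM⟩ := (hK.image_of_continuousOn (hv.mono hsub).norm).bddAbove
  have hb : ∀ z ∈ ball (0 : ℂ) 1, ‖v z‖ ^ 2 ≤ δ⁻¹ ^ 2 * ‖g z‖ ^ 2 + M ^ 2 := by
    intro z hz
    by_cases hzr : ‖z‖ ≤ r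
    · have h1 : ‖v z‖ ≤ M := hM ⟨z, mem_closedBall_zero_iff.2 hzr, rfl⟩
      have h2 : ‖v z‖ ^ 2 ≤ M ^ 2 := by
        have := norm_nonneg (v z)
        gcongr
      have h3 : 0 ≤ δ⁻¹ ^ 2 * ‖g z‖ ^ 2 := by positivity
      linarith
    · rw [not_le] at hzr
      have h1 := hP z hzr.le (mem_ball_zero_iff.1 hz)
      have h2 : ‖v z‖ ≤ δ⁻¹ * ‖g z‖ := by
        rw [hgv z hz, norm_mul, ← div_eq_inv_mul, le_div_iff₀ hδ]
        have := norm_nonneg (v z)
        nlinarith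
      have h3 : ‖v z‖ ^ 2 ≤ (δ⁻¹ * ‖g z‖) ^ 2 := by
        have := norm_nonneg (v z)
        gcongr
      rw [mul_pow] at h3
      have h4 : 0 ≤ M ^ 2 := sq_nonneg M
      linarith
  have hi : IntegrableOn (fun z => δ⁻¹ ^ 2 * ‖g z‖ ^ 2 + M ^ 2) (ball (0 : ℂ) 1) := by
    refine (hg.const_mul _).add ?_
    exact integrableOn_const (measure_ball_lt_top).ne
  refine Integrable.mono' hi ?_ ?_
  · exact ((hv.norm.pow 2).aestronglyMeasurable measurableSet_ball)
  · rw [ae_restrict_iff' measurableSet_ball]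
    refine Eventually.of_forall fun z hz => ?_
    rw [Real.norm_eq_abs, abs_of_nonneg (by positivity)]
    exact hb z hz

/-- piece A -/
theorem split_ext {c : ℝ} (h0 : 0 < c) (h1 : c < 1) {f g : ℂ → ℂ} (h : Ext c f g) :
    ∃ (s : Multiset ℂ) (v N : ℂ → ℂ), (∀ a ∈ s, ‖a‖ < c) ∧
      DifferentiableOn ℂ v (ball 0 1) ∧ DifferentiableOn ℂ N (ball 0 1) ∧
      IntegrableOn (fun z => ‖v z‖ ^ 2) (ball 0 1) ∧
      (∀ z ∈ ball (0 : ℂ) 1, g z = mm s z * v z) ∧
      (∀ z ∈ ball (0 : ℂ) 1, f z = (KF c : ℂ) * v z * N z) ∧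
      (∀ z : ℂ, c ≤ ‖z‖ → ‖z‖ < 1 → ‖N z‖ ≤ ‖mm s z‖) ∧
      (∀ z ∈ ball (0 : ℂ) 1, ‖N z‖ ≤ ‖mr s z‖) := by
  obtain ⟨s, v, N, hs, hv, hN, hg, hf, _, hN1⟩ := fac_N h0 h1 (kf_pos' h0 h1) h.1.1 h.2.1.1
    (ne_of_sph h.2.1) fun z hz hz1 => h.2.2 z hz.le hz1
  have hs1 : ∀ a ∈ s, ‖a‖ < 1 := fun a ha => (hs a ha).trans h1
  refine ⟨s, v, N, hs, hv, hN, ?_, hg, fun z hz => by rw [hf z hz, mul_assoc], hN1, ?_⟩
  · obtain ⟨r, hr, hprod⟩ := prod_near hs1 (δ := 1) one_pos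
    have hr1 : max r 0 < 1 := max_lt hr one_pos
    have hK : IsCompact (closedBall (0 : ℂ) 1 \ ball 0 (max r 0)) :=
      (isCompact_closedBall 0 1).diff isOpen_ball
    have hKne : (closedBall (0 : ℂ) 1 \ ball 0 (max r 0)).Nonempty :=
      ⟨1, by simp [hr.le]⟩
    obtain ⟨w, hw, hwm⟩ := hK.exists_isMinOn hKne (mm_diff33 s).continuous.norm.continuousOn
    have hw1 : r ≤ ‖w‖ := by
      have h3 := hw.2
      rw [mem_ball_zero_iff, not_lt] at h3
      exact (le_max_left _ _).trans h3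
    have hw2 : ‖w‖ ≤ 1 := mem_closedBall_zero_iff.1 hw.1
    have hδ : 0 < ‖mm s w‖ := norm_pos_iff.2 (hprod w hw1 hw2).1
    refine int_div hr1 hδ hv.continuousOn hg (fun z hz hz1 => ?_) h.2.1.2.1
    have hzK : z ∈ closedBall (0 : ℂ) 1 \ ball 0 (max r 0) :=
      ⟨mem_closedBall_zero_iff.2 hz1.le, by rw [mem_ball_zero_iff, not_lt]; exact hz⟩
    exact hwm hzK
  · intro z hz
    have hz1 := mem_ball_zero_iff.1 hz
    by_cases hzc : c ≤ ‖z‖
    · exact (hN1 z hzc hz1).trans (mm_le_mr hs1 hz1.le)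
    · rw [not_le] at hzc
      have hd : DiffContOnCl ℂ (fun z => N z / mr s z) (ball 0 c) := by
        apply DifferentiableOn.diffContOnCl
        rw [closure_ball _ h0.ne']
        have hsub : closedBall (0 : ℂ) c ⊆ ball (0 : ℂ) 1 := closedBall_subset_ball h1
        refine (hN.mono hsub).div (mr_diff33 s).differentiableOn fun y hy => ?_
        exact mr_ne33 hs1 (mem_ball_zero_iff.1 (hsub hy)).le
      have hmax := Complex.norm_le_of_forall_mem_frontier_norm_le (C := 1) isBounded_ball hd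
        (fun y hy => by
          rw [frontier_ball _ h0.ne', mem_sphere_zero_iff_norm] at hy
          have hy1 : ‖y‖ < 1 := by rw [hy]; exact h1
          have h3 := (hN1 y hy.ge hy1).trans (mm_le_mr hs1 hy1.le)
          rw [norm_div, div_le_one (norm_pos_iff.2 (mr_ne33 hs1 hy1.le))]
          exact h3) (z := z) (by
          rw [closure_ball _ h0.ne', mem_closedBall_zero_iff]
          exact hzc.le)
      rw [norm_div, div_le_one (norm_pos_iff.2 (mr_ne33 hs1 hz1.le))] at hmax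
      exact hmax

end Pool.Agent.Helper23.KU
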